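import Pool.Agent.NC11.Defs

set_option autoImplicit false

open scoped Real

namespace NC11

/-! ## [NC-M10a] `T_p` preserves modularity (`p ≠ 11` prime)

For `γ = (a, b; 11 c, d)`, `z ∈ UH`, write `C = 11 c`.
* `j` with `p ∤ a + j C`: choose `k` (mod p) with `(a + j C) k ≡ b + j d mod p`; then
  `(γ z + j)/p = γ' ((z + k)/p)` with `γ' = (a + j C, (b + j d - (a + j C) k)/p; p C, d - C k)` of determinant 1, and
  `p C (z + k)/p + d - C k = C z + d`; so `g((γ z + j)/p) = (C z + d)² g((z + k)/p)`;
* `j` with `p ∣ a + j C`: `(γ z + j)/p = γ' (p z)`, `γ' = ((a + j C)/p, b + j d; C, p d)`, so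
  `g((γ z + j)/p) = p² (C z + d)² g(p z)`;
* `p γ z`: if `p ∣ C`: `= γ' (p z)`, `γ' = (a, p b; C/p, d)` (note `11 ∣ C/p`), `g = (C z + d)² g(p z)`; if `p ∤ C`: choose
  `k` with `C k ≡ d mod p`: `p γ z = γ' ((z + k)/p)`, `γ' = (p a, b - a k; C, (d - C k)/p)`,
  `g(p γ z) = p⁻² (C z + d)² g((z + k)/p)`.
The map `j ↦ k` is a bijection of `ℤ/p ∪ {∞}` (`k ≡ (b + j d)/(a + j C)`, a Möbius transformation of determinant 1 mod p).

`T_fricke`: with `w' = -1/(11 z)`: `p g(p w') = p g(-1/(11 (z/p))) = - 11 z² (1/p) g(z/p)` (the term `j = 0`);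
`(1/p) g(w'/p) = (1/p) g(-1/(11 p z)) = - 11 z² p g(p z)`; for `j ≠ 0` choose `k` with `11 j k ≡ -1 mod p`; then
`(w' + j)/p = γ' (-1/(11 (z + k)/p))` with `γ' = ((11 j k + 1)/p, j; 11 k, p)` of determinant 1, and
`g((w' + j)/p) = - 11 z² g((z + k)/p)`. -/

/-- the terms of `T p g z`, indexed by the projective line over `ZMod p` -/
noncomputable def m10a_S (p : ℕ) (g : ℂ → ℂ) (z : ℂ) : Option (ZMod p) → ℂ
  | none => p * g (p * z)
  | some j => 1 / p * g ((z + (j.val : ℂ)) / p)

theorem m10a_T (p : ℕ) [NeZero p] (g : ℂ → ℂ) (z : ℂ) :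
    T p g z = ∑ x : Option (ZMod p), m10a_S p g z x := by
  rw [Fintype.sum_option, T, Finset.mul_sum]
  congr 1
  refine Finset.sum_nbij' (fun j => (j : ZMod p)) (fun j => j.val) ?_ ?_ ?_ ?_ ?_
  · intro j _
    exact Finset.mem_univ _
  · intro j _
    exact Finset.mem_range.2 (ZMod.val_lt j)
  · intro j hj
    exact ZMod.val_cast_of_lt (Finset.mem_range.1 hj)
  · intro j _
    exact ZMod.natCast_zmod_val j
  · intro j hj
    have h1 : ((j : ZMod p).val) = j := ZMod.val_cast_of_lt (Finset.mem_range.1 hj)
    change _ = 1 / (p : ℂ) * g ((z + (((j : ZMod p).val : ℕ) : ℂ)) / p)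
    rw [h1]

theorem m10a_im_mul {p : ℕ} (hp : 0 < p) {z : ℂ} (hz : 0 < z.im) : 0 < ((p : ℂ) * z).im := by
  have h1 : (0 : ℝ) < p := by exact_mod_cast hp
  simp only [Complex.mul_im, Complex.natCast_re, Complex.natCast_im, zero_mul, add_zero]
  positivity

theorem m10a_im_div {p : ℕ} (hp : 0 < p) (k : ℕ) {z : ℂ} (hz : 0 < z.im) :
    0 < ((z + k) / (p : ℂ)).im := by
  have h1 : (0 : ℝ) < p := by exact_mod_cast hp
  rw [Complex.div_natCast_im, Complex.add_im, Complex.natCast_im, add_zero]
  positivity

theorem m10a_ne {a b C d : ℤ} (hdet : a * d - b * C = 1) {z : ℂ} (hz : 0 < z.im) :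
    (C : ℂ) * z + d ≠ 0 := by
  intro h
  have h1 := congrArg Complex.im h
  simp only [Complex.add_im, Complex.mul_im, Complex.intCast_re, Complex.intCast_im, zero_mul,
    add_zero, Complex.zero_im] at h1
  have hC : (C : ℝ) = 0 := by
    rcases mul_eq_zero.1 h1 with h2 | h2
    · exact h2
    · exact absurd h2 hz.ne'
  have hC' : C = 0 := by exact_mod_cast hC
  rw [hC', Int.cast_zero, zero_mul, zero_add] at h
  have hd : d = 0 := by exact_mod_cast h
  rw [hC', hd] at hdet
  simp at hdet

/-- the action on the projective line -/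
noncomputable def m10a_mob (p : ℕ) [Fact p.Prime] (a b C d : ZMod p) :
    Option (ZMod p) → Option (ZMod p)
  | none => if C = 0 then none else some (d / C)
  | some j => if a + j * C = 0 then none else some ((b + j * d) / (a + j * C))

theorem m10a_mob_inj (p : ℕ) [Fact p.Prime] (a b C d : ZMod p) (hdet : a * d - b * C = 1) :
    Function.Injective (m10a_mob p a b C d) := by
  intro x y hxy
  rcases x with _ | j <;> rcases y with _ | j'
  · rfl
  · exfalso
    simp only [m10a_mob] at hxy
    by_cases h1 : C = 0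
    · by_cases h2 : a + j' * C = 0
      · rw [h1, mul_zero, add_zero] at h2
        rw [h1, h2] at hdet
        simp at hdet
      · simp [h1] at hxy
        rw [h1] at h2
        simp at h2
        exact h2 hxy
    · by_cases h2 : a + j' * C = 0
      · simp [h1, h2] at hxy
      · rw [if_neg h1, if_neg h2, Option.some_inj, div_eq_div_iff h1 h2] at hxy
        have : (1 : ZMod p) = 0 := by linear_combination hxy - hdet
        exact one_ne_zero this
  · exfalso
    simp only [m10a_mob] at hxy
    by_cases h1 : C = 0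
    · by_cases h2 : a + j * C = 0
      · rw [h1, mul_zero, add_zero] at h2
        rw [h1, h2] at hdet
        simp at hdet
      · simp [h1] at hxy
        rw [h1] at h2
        simp at h2
        exact h2 hxy
    · by_cases h2 : a + j * C = 0
      · simp [h1, h2] at hxy
      · rw [if_neg h1, if_neg h2, Option.some_inj, div_eq_div_iff h2 h1] at hxy
        have : (1 : ZMod p) = 0 := by linear_combination -hxy - hdet
        exact one_ne_zero this
  · simp only [m10a_mob] at hxy
    congr 1
    by_cases h1 : a + j * C = 0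
    · by_cases h2 : a + j' * C = 0
      · have hC : C ≠ 0 := by
          intro h0
          rw [h0, mul_zero, add_zero] at h2
          rw [h0, h2] at hdet
          simp at hdet
        have h3 : (j - j') * C = 0 := by linear_combination h1 - h2
        rcases mul_eq_zero.1 h3 with h4 | h4
        · exact sub_eq_zero.1 h4
        · exact absurd h4 hC
      · rw [if_pos h1, if_neg h2] at hxy
        exact absurd hxy (by simp)
    · by_cases h2 : a + j' * C = 0
      · rw [if_neg h1, if_pos h2] at hxy
        exact absurd hxy (by simp)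
      · rw [if_neg h1, if_neg h2, Option.some_inj, div_eq_div_iff h1 h2] at hxy
        have h3 : j - j' = 0 := by linear_combination hxy - (j - j') * hdet
        exact sub_eq_zero.1 h3

theorem m10a_step {p : ℕ} [Fact p.Prime] (hp11 : p ≠ 11) {g : ℂ → ℂ} (hg : Mod 2 g)
    (a b c d : ℤ) (hdet : a * d - 11 * b * c = 1) {z : ℂ} (hz : 0 < z.im) (x : Option (ZMod p)) :
    m10a_S p g ((a * z + b) / (11 * c * z + d)) x =
      (11 * c * z + d) ^ 2 * m10a_S p g z
        (m10a_mob p (a : ZMod p) (b : ZMod p) ((11 * c : ℤ) : ZMod p) (d : ZMod p) x) := by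
  have hp : p.Prime := Fact.out
  have hp0 : (p : ℂ) ≠ 0 := by exact_mod_cast hp.ne_zero
  have hne : (11 * c * z + d : ℂ) ≠ 0 := by
    have h := m10a_ne (a := a) (b := b) (C := 11 * c) (d := d) (by linarith) hz
    push_cast at h
    exact h
  rcases x with _ | j
  · simp only [m10a_mob]
    by_cases h1 : ((11 * c : ℤ) : ZMod p) = 0
    · rw [if_pos h1]
      simp only [m10a_S]
      rw [ZMod.intCast_zmod_eq_zero_iff_dvd] at h1
      have h2 : (p : ℤ) ∣ c := by
        rcases (Nat.prime_iff_prime_int.1 hp).dvd_or_dvd h1 with h | h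
        · exfalso
          have h3 : p ∣ 11 := by exact_mod_cast h
          exact hp11 ((Nat.prime_dvd_prime_iff_eq hp (by norm_num)).1 h3)
        · exact h
      obtain ⟨c1, hc1⟩ := h2
      have h3 := hg a (p * b) c1 d (by rw [hc1] at hdet; linarith) (p * z)
        (m10a_im_mul hp.pos hz)
      have hcc : (c : ℂ) = p * c1 := by rw [hc1]; push_cast; ring
      have e1 : (11 * (c1 : ℂ) * (p * z) + d) = 11 * c * z + d := by rw [hcc]; ring
      have e2 : ((a : ℂ) * (p * z) + ((p * b : ℤ) : ℂ)) / (11 * c * z + d) =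
          p * ((a * z + b) / (11 * c * z + d)) := by
        push_cast
        field_simp
      rw [e1, e2] at h3
      rw [h3]
      ring
    · rw [if_neg h1]
      simp only [m10a_S]
      set k : ZMod p := (d : ZMod p) / ((11 * c : ℤ) : ZMod p) with hk
      have h2 : ((d - 11 * c * (k.val : ℤ) : ℤ) : ZMod p) = 0 := by
        have hkk : ((k.val : ℤ) : ZMod p) = k := by
          push_cast
          exact ZMod.natCast_zmod_val k
        rw [Int.cast_sub, Int.cast_mul, hkk, hk, mul_div_cancel₀ _ h1, sub_self]
      rw [ZMod.intCast_zmod_eq_zero_iff_dvd] at h2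
      obtain ⟨e, he⟩ := h2
      have h3 := hg (p * a) (b - a * k.val) c e (by linear_combination hdet - a * he)
        ((z + k.val) / p) (m10a_im_div hp.pos _ hz)
      have hec : (d : ℂ) - 11 * c * (k.val : ℂ) = p * e := by exact_mod_cast he
      have e1 : 11 * (c : ℂ) * ((z + k.val) / p) + e = (11 * c * z + d) / p := by
        field_simp
        linear_combination -hec
      have e2 : (((p * a : ℤ) : ℂ) * ((z + k.val) / p) + ((b - a * k.val : ℤ) : ℂ)) /
          ((11 * c * z + d) / p) = p * ((a * z + b) / (11 * c * z + d)) := by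
        push_cast
        field_simp
        ring
      rw [e1, e2] at h3
      rw [h3]
      field_simp
  · simp only [m10a_mob]
    have hj : ((j.val : ℤ) : ZMod p) = j := by
      push_cast
      exact ZMod.natCast_zmod_val j
    by_cases h1 : (a : ZMod p) + j * ((11 * c : ℤ) : ZMod p) = 0
    · rw [if_pos h1]
      simp only [m10a_S]
      have h2 : ((a + j.val * (11 * c) : ℤ) : ZMod p) = 0 := by
        rw [Int.cast_add, Int.cast_mul, hj]
        exact h1
      rw [ZMod.intCast_zmod_eq_zero_iff_dvd] at h2
      obtain ⟨e, he⟩ := h2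
      have h3 := hg e (b + j.val * d) c (p * d) (by linear_combination hdet - d * he) (p * z)
        (m10a_im_mul hp.pos hz)
      have hec : (a : ℂ) + (j.val : ℂ) * (11 * c) = p * e := by exact_mod_cast he
      have e1 : 11 * (c : ℂ) * (p * z) + ((p * d : ℤ) : ℂ) = p * (11 * c * z + d) := by
        push_cast
        ring
      have e2 : ((e : ℂ) * (p * z) + ((b + j.val * d : ℤ) : ℂ)) / (p * (11 * c * z + d)) =
          ((a * z + b) / (11 * c * z + d) + (j.val : ℂ)) / p := by
        push_cast
        have hq := div_mul_cancel₀ ((a : ℂ) * z + b) hne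
        rw [div_eq_div_iff (mul_ne_zero hp0 hne) hp0]
        generalize ((a : ℂ) * z + b) / (11 * c * z + d) = q at hq ⊢
        linear_combination -p * z * hec - p * hq
      rw [e1, e2] at h3
      rw [h3]
      field_simp
    · rw [if_neg h1]
      simp only [m10a_S]
      set k : ZMod p := ((b : ZMod p) + j * (d : ZMod p)) /
        ((a : ZMod p) + j * ((11 * c : ℤ) : ZMod p)) with hk
      have h2 : ((b + j.val * d - (a + j.val * (11 * c)) * (k.val : ℤ) : ℤ) : ZMod p) = 0 := by
        have hkk : ((k.val : ℤ) : ZMod p) = k := by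
          push_cast
          exact ZMod.natCast_zmod_val k
        rw [Int.cast_sub, Int.cast_mul, hkk, Int.cast_add, Int.cast_add, Int.cast_mul,
          Int.cast_mul, hj, hk, mul_div_cancel₀ _ h1, sub_self]
      rw [ZMod.intCast_zmod_eq_zero_iff_dvd] at h2
      obtain ⟨e, he⟩ := h2
      have h3 := hg (a + j.val * (11 * c)) e (p * c) (d - 11 * c * k.val)
        (by linear_combination hdet + 11 * c * he) ((z + k.val) / p) (m10a_im_div hp.pos _ hz)
      have hec : (b : ℂ) + (j.val : ℂ) * d - (a + (j.val : ℂ) * (11 * c)) * (k.val : ℂ) = p * e := by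
        exact_mod_cast he
      have e1 : 11 * (((p * c : ℤ) : ℂ)) * ((z + k.val) / p) + ((d - 11 * c * k.val : ℤ) : ℂ) =
          11 * c * z + d := by
        push_cast
        field_simp
        ring
      have e2 : (((a + j.val * (11 * c) : ℤ) : ℂ) * ((z + k.val) / p) + (e : ℂ)) /
          (11 * c * z + d) = ((a * z + b) / (11 * c * z + d) + (j.val : ℂ)) / p := by
        push_cast
        field_simp
        linear_combination -hec
      rw [e1, e2] at h3
      rw [h3]
      ring

/-- the involution of the projective line for the Fricke involution -/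
noncomputable def m10a_fr (p : ℕ) [Fact p.Prime] : Option (ZMod p) → Option (ZMod p)
  | none => some 0
  | some j => if j = 0 then none else some (-1 / (11 * j))

theorem T_mod {p : ℕ} (hp : p.Prime) (hp11 : p ≠ 11) {g : ℂ → ℂ} (hg : Mod 2 g) : Mod 2 (T p g) := by
  haveI : Fact p.Prime := ⟨hp⟩
  intro a b c d hdet z hz
  rw [m10a_T, m10a_T, Finset.mul_sum]
  have hdet' : (a : ZMod p) * (d : ZMod p) - (b : ZMod p) * ((11 * c : ℤ) : ZMod p) = 1 := by
    have h : ((a * d - 11 * b * c : ℤ) : ZMod p) = 1 := by rw [hdet, Int.cast_one]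
    push_cast at h ⊢
    linear_combination h
  have hbij : Function.Bijective (m10a_mob p (a : ZMod p) (b : ZMod p) ((11 * c : ℤ) : ZMod p)
      (d : ZMod p)) := (m10a_mob_inj p _ _ _ _ hdet').bijective_of_finite
  rw [← hbij.sum_comp (fun x => (11 * (c : ℂ) * z + d) ^ 2 * m10a_S p g z x)]
  exact Finset.sum_congr rfl fun x _ => m10a_step hp11 hg a b c d hdet hz x

theorem T_fricke {p : ℕ} (hp : p.Prime) (hp11 : p ≠ 11) {g : ℂ → ℂ} (hg : Mod 2 g)
    (hF : Fricke g) : Fricke (T p g) := by
  haveI : Fact p.Prime := ⟨hp⟩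
  intro z hz
  have hp0 : (p : ℂ) ≠ 0 := by exact_mod_cast hp.ne_zero
  have hz0 : z ≠ 0 := by
    rintro rfl
    simp at hz
  have h11 : (11 : ZMod p) ≠ 0 := by
    intro h
    have h1 : ((11 : ℕ) : ZMod p) = 0 := by exact_mod_cast h
    rw [ZMod.natCast_eq_zero_iff] at h1
    exact hp11 ((Nat.prime_dvd_prime_iff_eq hp (by norm_num)).1 h1)
  have hinj : Function.Injective (m10a_fr p) := by
    intro x y hxy
    rcases x with _ | j <;> rcases y with _ | j'
    · rfl
    · exfalso
      simp only [m10a_fr] at hxy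
      by_cases h1 : j' = 0
      · simp [h1] at hxy
      · rw [if_neg h1, Option.some_inj] at hxy
        have h2 : (11 * j' : ZMod p) ≠ 0 := mul_ne_zero h11 h1
        rw [eq_div_iff h2, zero_mul] at hxy
        exact one_ne_zero (neg_eq_zero.1 hxy.symm)
    · exfalso
      simp only [m10a_fr] at hxy
      by_cases h1 : j = 0
      · simp [h1] at hxy
      · rw [if_neg h1, Option.some_inj] at hxy
        have h2 : (11 * j : ZMod p) ≠ 0 := mul_ne_zero h11 h1
        rw [div_eq_iff h2, zero_mul] at hxy
        exact one_ne_zero (neg_eq_zero.1 hxy)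
    · simp only [m10a_fr] at hxy
      congr 1
      by_cases h1 : j = 0
      · by_cases h2 : j' = 0
        · rw [h1, h2]
        · rw [if_pos h1, if_neg h2] at hxy
          exact absurd hxy (by simp)
      · by_cases h2 : j' = 0
        · rw [if_neg h1, if_pos h2] at hxy
          exact absurd hxy (by simp)
        · rw [if_neg h1, if_neg h2, Option.some_inj,
            div_eq_div_iff (mul_ne_zero h11 h1) (mul_ne_zero h11 h2)] at hxy
          have h3 : (11 : ZMod p) * (j - j') = 0 := by linear_combination hxy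
          rcases mul_eq_zero.1 h3 with h4 | h4
          · exact absurd h4 h11
          · exact sub_eq_zero.1 h4
  have hbij : Function.Bijective (m10a_fr p) := hinj.bijective_of_finite
  rw [m10a_T, m10a_T, Finset.mul_sum, ← hbij.sum_comp (fun x => -11 * z ^ 2 * m10a_S p g z x)]
  refine Finset.sum_congr rfl fun x _ => ?_
  rcases x with _ | j
  · simp only [m10a_fr, m10a_S, ZMod.val_zero, Nat.cast_zero, add_zero]
    have h1 := hF (z / p) (by simpa using m10a_im_div hp.pos 0 hz)
    have e1 : (p : ℂ) * (-1 / (11 * z)) = -1 / (11 * (z / p)) := by field_simp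
    rw [e1, h1]
    field_simp
  · simp only [m10a_fr]
    by_cases h1 : j = 0
    · rw [if_pos h1]
      simp only [m10a_S, h1, ZMod.val_zero, Nat.cast_zero, add_zero]
      have h2 := hF (p * z) (m10a_im_mul hp.pos hz)
      have e1 : -1 / (11 * z) / (p : ℂ) = -1 / (11 * (p * z)) := by field_simp
      rw [e1, h2]
      field_simp
    · rw [if_neg h1]
      simp only [m10a_S]
      set k : ZMod p := -1 / (11 * j) with hk
      have h2 : ((11 * j.val * k.val + 1 : ℤ) : ZMod p) = 0 := by
        push_cast
        rw [ZMod.natCast_zmod_val, ZMod.natCast_zmod_val, hk,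
          mul_div_cancel₀ _ (mul_ne_zero h11 h1)]
        ring
      rw [ZMod.intCast_zmod_eq_zero_iff_dvd] at h2
      obtain ⟨e, he⟩ := h2
      have hec : 11 * (j.val : ℂ) * (k.val : ℂ) + 1 = p * e := by exact_mod_cast he
      set ζ : ℂ := (z + k.val) / p with hζ
      have hζi : 0 < ζ.im := m10a_im_div hp.pos _ hz
      have hζ0 : ζ ≠ 0 := by
        intro h0
        rw [h0] at hζi
        simp at hζi
      have hzk : z + (k.val : ℂ) ≠ 0 := by
        intro h0
        apply hζ0
        rw [hζ, h0, zero_div]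
      have hi : 0 < (-1 / (11 * ζ)).im := by
        have e1 : -1 / (11 * ζ) = -((11 * ζ)⁻¹) := by field_simp
        rw [e1, Complex.neg_im, Complex.inv_im]
        have h3 : (11 * ζ).im = 11 * ζ.im := by simp
        rw [h3, neg_div, neg_neg]
        have h4 : 0 < Complex.normSq (11 * ζ) := Complex.normSq_pos.2 (mul_ne_zero (by norm_num) hζ0)
        positivity
      have h3 := hg e j.val k.val p (by linear_combination -he) _ hi
      have h4 := hF ζ hζi
      have e1 : 11 * (((k.val : ℤ) : ℂ)) * (-1 / (11 * ζ)) + ((p : ℤ) : ℂ) =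
          p * z / (z + k.val) := by
        push_cast
        rw [hζ]
        field_simp
        ring
      have e2 : ((e : ℂ) * (-1 / (11 * ζ)) + ((j.val : ℤ) : ℂ)) / (p * z / (z + k.val)) =
          (-1 / (11 * z) + (j.val : ℂ)) / p := by
        push_cast
        rw [hζ]
        field_simp
        linear_combination hec
      rw [e1, e2, h4] at h3
      rw [h3, hζ]
      field_simp

end NC11
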