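import Pool.Agent.NC11.Defs

set_option autoImplicit false

open scoped Real
open PowerSeries

namespace NC11

/-! ## [NC-M4] the `q`-expansion of `f`

`an_stable`: the coefficient of `X^n` of `prodTo N` does not depend on `N ≥ n`.
`f_ev`: with `q = qq z`, `f z = q ∏' (1 - q^(n+1))² (1 - q^(11(n+1)))²` is the limit of
`∑ₙ coeff n (prodTo N) q^n` for `N → ∞` (a polynomial in `q`); dominated convergence
(`tendsto_tsum_of_dominated_convergence`) with the bound `|coeff n (prodTo N)| |q|^n ≤ coeff n (X ∏_{k < n+1} (1 + X^{k+1})² (1 + X^{11 (k+1)})²) |q|^n`,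
whose partial sums are bounded by `|q| ∏ (1 + |q|^k)² (1 + |q|^{11 k})²`. (Alternatively: the function of `q`
is analytic on the unit disc, and its Taylor coefficients are the limits of those of the partial products,
which converge locally uniformly.) -/

/-- `X ∏_{k ≤ N} (1 + s X^k)² (1 + s X^{11 k})²` as a polynomial -/
noncomputable def m4_P (s : ℤ) (N : ℕ) : Polynomial ℤ :=
  Polynomial.X * ∏ k ∈ Finset.range N, ((1 + Polynomial.C s * Polynomial.X ^ (k + 1)) ^ 2 *
    (1 + Polynomial.C s * Polynomial.X ^ (11 * (k + 1))) ^ 2)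

theorem m4_P_succ (s : ℤ) (N : ℕ) : m4_P s (N + 1) =
    m4_P s N * ((1 + Polynomial.C s * Polynomial.X ^ (N + 1)) ^ 2 *
      (1 + Polynomial.C s * Polynomial.X ^ (11 * (N + 1))) ^ 2) := by
  unfold m4_P
  rw [Finset.prod_range_succ, mul_assoc]

theorem m4_coe (N : ℕ) : ((m4_P (-1) N : Polynomial ℤ) : PowerSeries ℤ) = prodTo N := by
  have h : ∀ N, ((m4_P (-1) N : Polynomial ℤ) : PowerSeries ℤ) = prodTo N := by
    intro N
    induction N with
    | zero => simp [m4_P, prodTo]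
    | succ N ih =>
      have h1 : prodTo (N + 1) = prodTo N *
          ((1 - X ^ (N + 1)) ^ 2 * (1 - X ^ (11 * (N + 1))) ^ 2) := by
        unfold prodTo
        rw [Finset.prod_range_succ, mul_assoc]
      rw [h1, m4_P_succ, ← ih]
      have hC : ((Polynomial.C (-1 : ℤ) : Polynomial ℤ) : PowerSeries ℤ) = -1 := by
        rw [Polynomial.coe_C]
        simp
      simp only [Polynomial.coe_mul, Polynomial.coe_pow, Polynomial.coe_add, Polynomial.coe_one,
        hC, Polynomial.coe_X]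
      ring
  exact h N

/-- the coefficients of `m4_P` are stable -/
theorem m4_stable (s : ℤ) {n N : ℕ} (h : n ≤ N) :
    (m4_P s N).coeff n = (m4_P s n).coeff n := by
  induction N, h using Nat.le_induction with
  | base => rfl
  | succ N hN ih =>
    rw [← ih]
    have h1 : m4_P s (N + 1) = m4_P s N + Polynomial.X ^ (N + 1) * (m4_P s N *
        (Polynomial.C s * (2 + Polynomial.C s * Polynomial.X ^ (N + 1)) *
          (1 + Polynomial.C s * Polynomial.X ^ (11 * (N + 1))) ^ 2 +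
        Polynomial.C s * Polynomial.X ^ (10 * (N + 1)) *
          (2 + Polynomial.C s * Polynomial.X ^ (11 * (N + 1))))) := by
      rw [m4_P_succ]
      have h2 : (Polynomial.X : Polynomial ℤ) ^ (11 * (N + 1)) =
          Polynomial.X ^ (N + 1) * Polynomial.X ^ (10 * (N + 1)) := by
        rw [← pow_add]
        congr 1
        ring
      rw [h2]
      ring
    rw [h1, Polynomial.coeff_add, Polynomial.coeff_X_pow_mul', if_neg (by omega), add_zero]

/-- domination of coefficients -/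
def m4_Dom (a b : Polynomial ℤ) : Prop := ∀ n, |a.coeff n| ≤ b.coeff n

theorem m4_Dom.nonneg {a b : Polynomial ℤ} (h : m4_Dom a b) (n : ℕ) : 0 ≤ b.coeff n :=
  (abs_nonneg _).trans (h n)

theorem m4_Dom.mul {a b c d : Polynomial ℤ} (h : m4_Dom a b) (h' : m4_Dom c d) :
    m4_Dom (a * c) (b * d) := by
  intro n
  rw [Polynomial.coeff_mul, Polynomial.coeff_mul]
  refine (Finset.abs_sum_le_sum_abs _ _).trans (Finset.sum_le_sum fun x _ => ?_)
  rw [abs_mul]
  exact mul_le_mul (h _) (h' _) (abs_nonneg _) (h.nonneg _)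

theorem m4_Dom.refl_of {b : Polynomial ℤ} (h : ∀ n, 0 ≤ b.coeff n) : m4_Dom b b := by
  intro n
  rw [abs_of_nonneg (h n)]

theorem m4_Dom_one_add {s : ℤ} (hs : |s| ≤ 1) {k : ℕ} (hk : 0 < k) :
    m4_Dom (1 + Polynomial.C s * Polynomial.X ^ k)
      (1 + Polynomial.C 1 * Polynomial.X ^ k) := by
  intro n
  rw [Polynomial.coeff_add, Polynomial.coeff_add, Polynomial.coeff_C_mul_X_pow,
    Polynomial.coeff_C_mul_X_pow, Polynomial.coeff_one]
  by_cases h0 : n = 0
  · rw [if_pos h0, if_neg (by omega), if_neg (by omega)]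
    simp
  · rw [if_neg h0]
    by_cases h1 : n = k
    · rw [if_pos h1, if_pos h1]
      simpa using hs
    · rw [if_neg h1, if_neg h1]
      simp

theorem m4_Dom_one {k : ℕ} (hk : 0 < k) :
    m4_Dom 1 (1 + Polynomial.C 1 * Polynomial.X ^ k) := by
  have h := m4_Dom_one_add (s := 0) (by norm_num) hk
  rwa [Polynomial.C_0, zero_mul, add_zero] at h

theorem m4_Dom_X : m4_Dom Polynomial.X Polynomial.X := by
  intro n
  rw [Polynomial.coeff_X]
  split_ifs <;> simp

theorem m4_Dom_P {s : ℤ} (hs : |s| ≤ 1) (N : ℕ) : m4_Dom (m4_P s N) (m4_P 1 N) := by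
  induction N with
  | zero =>
    unfold m4_P
    rw [Finset.prod_range_zero, mul_one, Finset.prod_range_zero, mul_one]
    exact m4_Dom_X
  | succ N ih =>
    rw [m4_P_succ, m4_P_succ]
    refine ih.mul (m4_Dom.mul ?_ ?_)
    · rw [sq, sq]
      exact (m4_Dom_one_add hs (by omega)).mul (m4_Dom_one_add hs (by omega))
    · rw [sq, sq]
      exact (m4_Dom_one_add hs (by omega)).mul (m4_Dom_one_add hs (by omega))

theorem m4_nonneg (N n : ℕ) : 0 ≤ (m4_P 1 N).coeff n :=
  (m4_Dom_P (s := 1) (by norm_num) N).nonneg n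

theorem m4_mono {n N : ℕ} (h : N ≤ n) (k : ℕ) :
    (m4_P 1 N).coeff k ≤ (m4_P 1 n).coeff k := by
  induction n, h using Nat.le_induction with
  | base => exact le_refl _
  | succ n hn ih =>
    refine ih.trans ?_
    have h1 : m4_Dom (m4_P 1 n * ((1 * 1) * (1 * 1))) (m4_P 1 (n + 1)) := by
      rw [m4_P_succ, sq, sq]
      refine (m4_Dom.refl_of (m4_nonneg n)).mul (m4_Dom.mul ?_ ?_)
      · exact (m4_Dom_one (by omega)).mul (m4_Dom_one (by omega))
      · exact (m4_Dom_one (by omega)).mul (m4_Dom_one (by omega))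
    have h2 := h1 k
    rw [mul_one, mul_one, mul_one] at h2
    exact (le_abs_self _).trans h2

theorem m4_bound {s : ℤ} (hs : |s| ≤ 1) (N n : ℕ) :
    |(m4_P s N).coeff n| ≤ (m4_P 1 n).coeff n := by
  rcases le_total n N with h | h
  · rw [m4_stable s h]
    exact m4_Dom_P hs n n
  · exact (m4_Dom_P hs N n).trans (m4_mono h n)

/-- evaluation of `m4_P` -/
theorem m4_eval {K : Type*} [Field K] (s : ℤ) (N : ℕ) (q : K) :
    (m4_P s N).eval₂ (Int.castRingHom K) q =
      q * ∏ k ∈ Finset.range N, ((1 + (s : K) * q ^ (k + 1)) ^ 2 *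
        (1 + (s : K) * q ^ (11 * (k + 1))) ^ 2) := by
  unfold m4_P
  rw [Polynomial.eval₂_mul, Polynomial.eval₂_X, Polynomial.eval₂_finsetProd]
  congr 1
  refine Finset.prod_congr rfl fun k _ => ?_
  simp only [Polynomial.eval₂_mul, Polynomial.eval₂_pow, Polynomial.eval₂_add,
    Polynomial.eval₂_one, Polynomial.eval₂_C, Polynomial.eval₂_X, Int.coe_castRingHom]

theorem m4_partial_le {r : ℝ} (h0 : 0 ≤ r) (h1 : r < 1) (M : ℕ) :
    ∑ n ∈ Finset.range M, (((m4_P 1 n).coeff n : ℤ) : ℝ) * r ^ n ≤ Real.exp (4 * (1 - r)⁻¹) := by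
  have e1 : ∑ n ∈ Finset.range M, (((m4_P 1 n).coeff n : ℤ) : ℝ) * r ^ n =
      ∑ n ∈ Finset.range M, (((m4_P 1 M).coeff n : ℤ) : ℝ) * r ^ n := by
    refine Finset.sum_congr rfl fun n hn => ?_
    rw [m4_stable 1 (Finset.mem_range.1 hn).le]
  have e2 : (m4_P 1 M).eval₂ (Int.castRingHom ℝ) r =
      ∑ n ∈ Finset.range (max M ((m4_P 1 M).natDegree + 1)),
        (((m4_P 1 M).coeff n : ℤ) : ℝ) * r ^ n := by
    rw [Polynomial.eval₂_eq_sum_range' _ (n := max M ((m4_P 1 M).natDegree + 1))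
      (lt_of_lt_of_le (Nat.lt_succ_self _) (le_max_right _ _))]
    rfl
  have e3 : ∑ n ∈ Finset.range M, (((m4_P 1 M).coeff n : ℤ) : ℝ) * r ^ n ≤
      (m4_P 1 M).eval₂ (Int.castRingHom ℝ) r := by
    rw [e2]
    refine Finset.sum_le_sum_of_subset_of_nonneg ?_ fun n _ _ => ?_
    · intro n hn
      rw [Finset.mem_range] at hn ⊢
      exact lt_of_lt_of_le hn (le_max_left _ _)
    · exact mul_nonneg (by exact_mod_cast m4_nonneg M n) (pow_nonneg h0 n)
  rw [e1]
  refine e3.trans ?_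
  rw [m4_eval]
  have e4 : ∏ k ∈ Finset.range M, ((1 + ((1 : ℤ) : ℝ) * r ^ (k + 1)) ^ 2 *
      (1 + ((1 : ℤ) : ℝ) * r ^ (11 * (k + 1))) ^ 2) ≤
      ∏ k ∈ Finset.range M, Real.exp (4 * r ^ k) := by
    refine Finset.prod_le_prod (fun k _ => by positivity) fun k _ => ?_
    have h3 : 1 + ((1 : ℤ) : ℝ) * r ^ (k + 1) ≤ Real.exp (r ^ k) := by
      have h4 := Real.add_one_le_exp (r ^ k)
      have h5 : r ^ (k + 1) ≤ r ^ k := pow_le_pow_of_le_one h0 h1.le (Nat.le_succ k)
      push_cast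
      linarith
    have h6 : 1 + ((1 : ℤ) : ℝ) * r ^ (11 * (k + 1)) ≤ Real.exp (r ^ k) := by
      have h4 := Real.add_one_le_exp (r ^ k)
      have h5 : r ^ (11 * (k + 1)) ≤ r ^ k := pow_le_pow_of_le_one h0 h1.le (by omega)
      push_cast
      linarith
    have h7 : Real.exp (4 * r ^ k) = Real.exp (r ^ k) ^ 2 * Real.exp (r ^ k) ^ 2 := by
      rw [← pow_add, ← Real.exp_nat_mul]
      norm_num
    rw [h7]
    have p1 : (0 : ℝ) ≤ 1 + ((1 : ℤ) : ℝ) * r ^ (k + 1) := by positivity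
    have p2 : (0 : ℝ) ≤ 1 + ((1 : ℤ) : ℝ) * r ^ (11 * (k + 1)) := by positivity
    exact mul_le_mul (pow_le_pow_left₀ p1 h3 2) (pow_le_pow_left₀ p2 h6 2)
      (by positivity) (by positivity)
  have e5 : ∏ k ∈ Finset.range M, Real.exp (4 * r ^ k) ≤ Real.exp (4 * (1 - r)⁻¹) := by
    rw [← Real.exp_sum, Real.exp_le_exp, ← Finset.mul_sum]
    refine mul_le_mul_of_nonneg_left ?_ (by norm_num)
    rw [← tsum_geometric_of_lt_one h0 h1]
    exact (summable_geometric_of_lt_one h0 h1).sum_le_tsum _ fun k _ => pow_nonneg h0 k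
  have e6 : (0 : ℝ) ≤ ∏ k ∈ Finset.range M, ((1 + ((1 : ℤ) : ℝ) * r ^ (k + 1)) ^ 2 *
      (1 + ((1 : ℤ) : ℝ) * r ^ (11 * (k + 1))) ^ 2) := Finset.prod_nonneg fun k _ => by positivity
  calc r * ∏ k ∈ Finset.range M, ((1 + ((1 : ℤ) : ℝ) * r ^ (k + 1)) ^ 2 *
      (1 + ((1 : ℤ) : ℝ) * r ^ (11 * (k + 1))) ^ 2)
      ≤ 1 * ∏ k ∈ Finset.range M, ((1 + ((1 : ℤ) : ℝ) * r ^ (k + 1)) ^ 2 *
      (1 + ((1 : ℤ) : ℝ) * r ^ (11 * (k + 1))) ^ 2) := mul_le_mul_of_nonneg_right h1.le e6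
    _ ≤ _ := by rw [one_mul]; exact e4.trans e5

theorem m4_summable {r : ℝ} (h0 : 0 ≤ r) (h1 : r < 1) :
    Summable fun n : ℕ => (((m4_P 1 n).coeff n : ℤ) : ℝ) * r ^ n :=
  summable_of_sum_range_le
    (fun n => mul_nonneg (by exact_mod_cast m4_nonneg n n) (pow_nonneg h0 n))
    (m4_partial_le h0 h1)

theorem an_stable {n N : ℕ} (h : n ≤ N) : coeff n (prodTo N) = an n := by
  unfold an
  rw [← m4_coe, ← m4_coe, Polynomial.coeff_coe, Polynomial.coeff_coe]
  exact m4_stable (-1) h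

theorem an_zero : an 0 = 0 := by
  unfold an prodTo
  simp

theorem an_one : an 1 = 1 := by
  unfold an prodTo
  rw [show (1 : ℕ) = 0 + 1 from rfl, coeff_succ_X_mul]
  simp

theorem A_eq : A = X * phi := by
  ext n
  cases n with
  | zero =>
    rw [A, coeff_mk, an_zero]
    simp
  | succ n => rw [A, coeff_mk, coeff_succ_X_mul, phi, coeff_mk]

theorem phi_zero : constantCoeff phi = 1 := by
  rw [← coeff_zero_eq_constantCoeff_apply, phi, coeff_mk, zero_add, an_one]

theorem m4_an (n : ℕ) : an n = (m4_P (-1) n).coeff n := by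
  unfold an
  rw [← m4_coe, Polynomial.coeff_coe]

theorem m4_qq_norm {z : ℂ} (hz : 0 < z.im) : ‖qq z‖ < 1 := by
  unfold qq
  rw [Complex.norm_exp, Real.exp_lt_one_iff]
  have h1 : (2 * (π : ℂ) * Complex.I * z).re = -(2 * π * z.im) := by
    simp [Complex.mul_re, Complex.mul_im]
  rw [h1]
  have := mul_pos (mul_pos two_pos Real.pi_pos) hz
  linarith

/-- `η²(z) η²(11 z)` as a product -/
theorem m4_f_eq {z : ℂ} : f z = qq z * (∏' k : ℕ, (1 - qq z ^ (k + 1))) ^ 2 *
    (∏' k : ℕ, (1 - (qq z ^ 11) ^ (k + 1))) ^ 2 := by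
  have h1 : ∀ w : ℂ, ModularForm.eta w = Complex.exp (2 * π * Complex.I * w / 24) *
      ∏' k : ℕ, (1 - qq w ^ (k + 1)) := by
    intro w
    unfold ModularForm.eta
    have h0 : Function.Periodic.qParam 24 w = Complex.exp (2 * π * Complex.I * w / 24) := by
      unfold Function.Periodic.qParam
      push_cast
      rfl
    rw [h0]
    congr 1
    refine tprod_congr fun n => ?_
    rw [ModularForm.eta_q_eq_pow]
    rfl
  have h2 : qq (11 * z) = qq z ^ 11 := by
    unfold qq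
    rw [← Complex.exp_nat_mul]
    congr 1
    push_cast
    ring
  unfold f
  rw [h1, h1, h2]
  have h3 : qq z = Complex.exp (2 * π * Complex.I * z / 24) ^ 2 *
      Complex.exp (2 * π * Complex.I * (11 * z) / 24) ^ 2 := by
    unfold qq
    rw [← Complex.exp_nat_mul, ← Complex.exp_nat_mul, ← Complex.exp_add]
    congr 1
    push_cast
    ring
  rw [mul_pow, mul_pow]
  conv_rhs => rw [show qq z * (∏' k : ℕ, (1 - qq z ^ (k + 1))) ^ 2 *
    (∏' k : ℕ, (1 - (qq z ^ 11) ^ (k + 1))) ^ 2 = (∏' k : ℕ, (1 - qq z ^ (k + 1))) ^ 2 *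
    (∏' k : ℕ, (1 - (qq z ^ 11) ^ (k + 1))) ^ 2 * qq z by ring]
  rw [show Complex.exp (2 * π * Complex.I * z / 24) ^ 2 *
      (∏' k : ℕ, (1 - qq z ^ (k + 1))) ^ 2 *
      (Complex.exp (2 * π * Complex.I * (11 * z) / 24) ^ 2 *
      (∏' k : ℕ, (1 - (qq z ^ 11) ^ (k + 1))) ^ 2) = (∏' k : ℕ, (1 - qq z ^ (k + 1))) ^ 2 *
    (∏' k : ℕ, (1 - (qq z ^ 11) ^ (k + 1))) ^ 2 * (Complex.exp (2 * π * Complex.I * z / 24) ^ 2 *
      Complex.exp (2 * π * Complex.I * (11 * z) / 24) ^ 2) by ring, ← h3]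

theorem f_ev : Ev A f := by
  intro z hz
  set q := qq z with hq
  have hq1 : ‖q‖ < 1 := m4_qq_norm hz
  have hq11 : ‖q ^ 11‖ < 1 := by
    rw [norm_pow]
    exact pow_lt_one₀ (norm_nonneg _) hq1 (by norm_num)
  have hA : ∀ n, ((coeff n A : ℤ) : ℂ) = (an n : ℂ) := fun n => by rw [A, coeff_mk]
  simp only [hA]
  -- summability
  have hsB := m4_summable (norm_nonneg q) hq1
  have hb : ∀ N n : ℕ, ‖(((m4_P (-1) N).coeff n : ℤ) : ℂ) * q ^ n‖ ≤
      (((m4_P 1 n).coeff n : ℤ) : ℝ) * ‖q‖ ^ n := by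
    intro N n
    rw [norm_mul, norm_pow, Complex.norm_intCast]
    refine mul_le_mul_of_nonneg_right ?_ (pow_nonneg (norm_nonneg _) _)
    exact_mod_cast m4_bound (s := -1) (by norm_num) N n
  have hsum : Summable fun n : ℕ => (an n : ℂ) * q ^ n := by
    refine Summable.of_norm_bounded hsB fun n => ?_
    rw [m4_an]
    exact hb n n
  -- the limit of the partial products
  have hP : ∀ N, ∑' n : ℕ, (((m4_P (-1) N).coeff n : ℤ) : ℂ) * q ^ n =
      q * (∏ k ∈ Finset.range N, (1 - q ^ (k + 1))) ^ 2 *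
        (∏ k ∈ Finset.range N, (1 - (q ^ 11) ^ (k + 1))) ^ 2 := by
    intro N
    have h1 : (m4_P (-1) N).eval₂ (Int.castRingHom ℂ) q =
        ∑' n : ℕ, (((m4_P (-1) N).coeff n : ℤ) : ℂ) * q ^ n := by
      rw [Polynomial.eval₂_eq_sum_range]
      symm
      refine tsum_eq_sum fun n hn => ?_
      rw [Finset.mem_range, not_lt] at hn
      rw [Polynomial.coeff_eq_zero_of_natDegree_lt (by omega), Int.cast_zero, zero_mul]
    rw [← h1, m4_eval, mul_assoc, ← Finset.prod_pow, ← Finset.prod_pow, ← Finset.prod_mul_distrib]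
    congr 1
    refine Finset.prod_congr rfl fun k _ => ?_
    rw [← pow_mul]
    push_cast
    ring
  have hlim1 : Filter.Tendsto (fun N => ∑' n : ℕ, (((m4_P (-1) N).coeff n : ℤ) : ℂ) * q ^ n)
      Filter.atTop (nhds (f z)) := by
    simp only [hP]
    rw [m4_f_eq, ← hq]
    have t1 := (ModularForm.multipliable_one_sub_pow hq1).hasProd.tendsto_prod_nat
    have t2 := (ModularForm.multipliable_one_sub_pow hq11).hasProd.tendsto_prod_nat
    exact (tendsto_const_nhds.mul (t1.pow 2)).mul (t2.pow 2)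
  have hlim2 : Filter.Tendsto (fun N => ∑' n : ℕ, (((m4_P (-1) N).coeff n : ℤ) : ℂ) * q ^ n)
      Filter.atTop (nhds (∑' n : ℕ, (an n : ℂ) * q ^ n)) := by
    refine tendsto_tsum_of_dominated_convergence hsB (fun n => ?_)
      (Filter.Eventually.of_forall fun N n => hb N n)
    refine tendsto_const_nhds.congr' ?_
    filter_upwards [Filter.eventually_ge_atTop n] with N hN
    rw [m4_an, m4_stable (-1) hN]
  rw [tendsto_nhds_unique hlim1 hlim2]
  exact hsum.hasSum

end NC11
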