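import Pool.Agent.NC11.Defs
import Pool.Agent.MP_9ab903_nt.MF.B

set_option autoImplicit false

open scoped Real

namespace NC11

/-! ## [NC-M6] invariant functions are constant -/

theorem const_of_inv {g : ℂ → ℂ} (hg : DifferentiableOn ℂ g UH) (h0 : Mod 0 g)
    (hW : ∀ z : ℂ, 0 < z.im → g (-1 / (11 * z)) = g z)
    (hb : ∃ C Y : ℝ, ∀ z : ℂ, Y ≤ z.im → ‖g z‖ ≤ C) :
    ∀ z z' : ℂ, 0 < z.im → 0 < z'.im → g z = g z' := by
  obtain ⟨C, Y, hb⟩ := hb
  have key : ∀ (Q : ℤ) (M : Matrix (Fin 2) (Fin 2) ℤ), X11.QQ Q → X11.IsAL Q M →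
      ∀ z : ℂ, 0 < z.im → g (MP9c45e8.mob M z) = g z := by
    have hG : ∀ M : Matrix (Fin 2) (Fin 2) ℤ, M.det = 1 → 11 ∣ M 1 0 → ∀ z : ℂ, 0 < z.im →
        g (MP9c45e8.mob M z) = g z := by
      intro M hdet hdvd z hz
      obtain ⟨c, hc⟩ := hdvd
      have h1 := h0 (M 0 0) (M 0 1) c (M 1 1) (by
        rw [Matrix.det_fin_two, hc] at hdet; linarith) z hz
      rw [pow_zero, one_mul] at h1
      rw [← h1, MP9c45e8.mob, hc]
      push_cast
      rfl
    intro Q M hQ hM z hz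
    rcases hQ with rfl | rfl
    · exact hG M hM.det hM.d11 z hz
    · obtain ⟨x, hx⟩ := hM.d0
      obtain ⟨u, hu⟩ := hM.d1
      obtain ⟨t, ht⟩ := hM.d11
      have hdet := hM.det
      have hd : 11 * x * u - M 0 1 * t = 1 := by
        rw [Matrix.det_fin_two, hx, hu, ht] at hdet
        linarith
      set G : Matrix (Fin 2) (Fin 2) ℤ := !![t, u; -11 * x, -(M 0 1)] with hGd
      have hG1 : G.det = 1 := by
        rw [hGd, Matrix.det_fin_two_of]; linarith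
      have hh : 11 * (0 : ℤ) ^ 2 + (-1) * 1 = -1 := by norm_num
      have e : M = X11.EM 0 (-1) 1 * G := by
        rw [hGd, X11.EM]
        ext i j
        fin_cases i <;> fin_cases j <;> simp [Matrix.mul_apply, Fin.sum_univ_two, hx, hu, ht]
      have hp : 0 < (X11.EM 0 (-1) 1).det := by rw [X11.EM_det hh]; norm_num
      have hpG : 0 < G.det := by rw [hG1]; norm_num
      have hw := MP9c45e8.mob_im_pos hpG hz
      have h2 : ∀ w, MP9c45e8.mob (X11.EM 0 (-1) 1) w = -1 / (11 * w) := by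
        intro w; simp [MP9c45e8.mob, X11.EM]
      rw [e, MP9c45e8.mob_mul hp hpG hz, h2, hW _ hw]
      exact hG G hG1 (by rw [hGd]; exact ⟨-x, by simp⟩) z hz
  obtain ⟨c, hc⟩ := X11.const_of_AL g hg
    (fun M hM h11 z hz ↦ key 1 M (Or.inl rfl) ⟨hM, one_dvd _, one_dvd _, h11⟩ z hz)
    (fun Q M hQ hM ↦ ⟨Y, C, fun z hz hY ↦ by rw [key Q M hQ hM z hz]; exact hb z hY⟩)
  intro z z' hz hz'
  rw [hc z hz, hc z' hz']

end NC11
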