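import Pool.Agent.NC11.Defs

set_option autoImplicit false

open scoped Real
open PowerSeries

namespace NC11

/-! ## [NC-M7] calculus of `q`-expansions -/

theorem m7_norm_qq (z : ℂ) : ‖qq z‖ = Real.exp (-2 * π * z.im) := by
  unfold qq
  rw [Complex.norm_exp]
  congr 1
  simp [Complex.mul_re, Complex.mul_im]

theorem m7_norm_qq_pow (z : ℂ) (n : ℕ) : ‖qq z‖ ^ n = Real.exp (-2 * π * n * z.im) := by
  rw [m7_norm_qq, ← Real.exp_nat_mul]
  congr 1
  ring

theorem m7_qq_pow (z : ℂ) (n : ℕ) : qq z ^ n = Complex.exp (n * (2 * π * Complex.I) * z) := by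
  unfold qq
  rw [← Complex.exp_nat_mul]
  congr 1
  ring

theorem Ev.m7_summable {B : PowerSeries ℤ} {g : ℂ → ℂ} (h : Ev B g) {y : ℝ} (hy : 0 < y) :
    Summable (fun n : ℕ => |((coeff n B : ℤ) : ℝ)| * Real.exp (-2 * π * n * y)) := by
  have h1 := (h ((y : ℂ) * Complex.I) (by simpa using hy)).summable.norm
  refine h1.congr fun n => ?_
  rw [norm_mul, norm_pow, m7_norm_qq_pow]
  simp

theorem Ev.add {B B' : PowerSeries ℤ} {g g' : ℂ → ℂ} (h : Ev B g) (h' : Ev B' g') :
    Ev (B + B') (fun z => g z + g' z) := by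
  intro z hz
  refine ((h z hz).add (h' z hz)).congr_fun ?_
  intro n
  simp [add_mul]

theorem Ev.sub {B B' : PowerSeries ℤ} {g g' : ℂ → ℂ} (h : Ev B g) (h' : Ev B' g') :
    Ev (B - B') (fun z => g z - g' z) := by
  intro z hz
  refine ((h z hz).sub (h' z hz)).congr_fun ?_
  intro n
  simp [sub_mul]

theorem Ev.mul {B B' : PowerSeries ℤ} {g g' : ℂ → ℂ} (h : Ev B g) (h' : Ev B' g') :
    Ev (B * B') (fun z => g z * g' z) := by
  intro z hz
  have h1 := (h z hz).summable.norm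
  have h2 := (h' z hz).summable.norm
  have h3 := (summable_norm_sum_mul_antidiagonal_of_summable_norm h1 h2).of_norm.hasSum
  rw [← tsum_mul_tsum_eq_tsum_sum_antidiagonal_of_summable_norm h1 h2, (h z hz).tsum_eq,
    (h' z hz).tsum_eq] at h3
  refine h3.congr_fun ?_
  intro n
  rw [coeff_mul, Int.cast_sum, Finset.sum_mul]
  refine Finset.sum_congr rfl fun p hp => ?_
  rw [← Finset.HasAntidiagonal.mem_antidiagonal.1 hp, pow_add]
  push_cast
  ring

theorem Ev.const (c : ℤ) : Ev (C c) (fun _ => (c : ℂ)) := by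
  intro z hz
  have h := hasSum_single (f := fun n => ((coeff n (C c : PowerSeries ℤ) : ℤ) : ℂ) * qq z ^ n) 0
    (by
      intro n hn
      rw [coeff_C, if_neg hn]
      simp)
  simpa using h

theorem Ev.pow {B : PowerSeries ℤ} {g : ℂ → ℂ} (h : Ev B g) (k : ℕ) :
    Ev (B ^ k) (fun z => g z ^ k) := by
  induction k with
  | zero =>
    have := Ev.const 1
    simpa using this
  | succ k ih =>
    simpa [pow_succ] using ih.mul h

theorem Ev.m7_hasDerivAt {B : PowerSeries ℤ} {g : ℂ → ℂ} (h : Ev B g) {z : ℂ} (hz : 0 < z.im) :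
    Summable (fun n : ℕ => ((coeff n B : ℤ) : ℂ) * (n * (2 * π * Complex.I) * qq z ^ n)) ∧
    HasDerivAt g (∑' n : ℕ, ((coeff n B : ℤ) : ℂ) * (n * (2 * π * Complex.I) * qq z ^ n)) z := by
  set y₀ : ℝ := z.im / 2 with hy₀
  have hy0 : 0 < y₀ := by positivity
  set y₁ : ℝ := z.im / 4 with hy₁
  have hy1 : 0 < y₁ := by positivity
  have hlt : y₁ < y₀ := by rw [hy₀, hy₁]; linarith
  have hs := h.m7_summable hy1
  obtain ⟨K, hK⟩ := hs.tendsto_atTop_zero.bddAbove_range
  have hgeo : Summable (fun n : ℕ => ((n : ℝ) ^ 1 * Real.exp (-2 * π * (y₀ - y₁)) ^ n)) := by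
    apply summable_pow_mul_geometric_of_norm_lt_one
    rw [Real.norm_eq_abs, abs_of_pos (Real.exp_pos _), Real.exp_lt_one_iff]
    have : 0 < y₀ - y₁ := by linarith
    have := mul_pos Real.pi_pos this
    nlinarith
  set u : ℕ → ℝ := fun n => (K * (2 * π)) * ((n : ℝ) ^ 1 * Real.exp (-2 * π * (y₀ - y₁)) ^ n)
    with hu
  have husum : Summable u := hgeo.mul_left _
  have hbound : ∀ (n : ℕ) (x : ℂ), x ∈ {x : ℂ | y₀ < x.im} →
      ‖((coeff n B : ℤ) : ℂ) * (n * (2 * π * Complex.I) * qq x ^ n)‖ ≤ u n := by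
    intro n x hx
    have hx' : y₀ < x.im := hx
    have e1 : ‖((coeff n B : ℤ) : ℂ) * (n * (2 * π * Complex.I) * qq x ^ n)‖
        = |((coeff n B : ℤ) : ℝ)| * Real.exp (-2 * π * n * x.im) * (n * (2 * π)) := by
      rw [norm_mul, norm_mul, norm_mul, norm_pow, m7_norm_qq_pow]
      simp [abs_of_pos Real.pi_pos]
      ring
    have e2 : |((coeff n B : ℤ) : ℝ)| * Real.exp (-2 * π * n * y₁) ≤ K := by
      apply hK
      exact ⟨n, rfl⟩
    have e3 : Real.exp (-2 * π * n * x.im) ≤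
        Real.exp (-2 * π * n * y₁) * Real.exp (-2 * π * (y₀ - y₁)) ^ n := by
      rw [← Real.exp_nat_mul, ← Real.exp_add, Real.exp_le_exp]
      have : (0 : ℝ) ≤ n := Nat.cast_nonneg n
      have h5 : 0 ≤ (n : ℝ) * (x.im - y₀) := mul_nonneg this (by linarith)
      have h6 := mul_nonneg Real.pi_pos.le h5
      nlinarith
    rw [e1, hu]
    calc |((coeff n B : ℤ) : ℝ)| * Real.exp (-2 * π * n * x.im) * (n * (2 * π))
        ≤ |((coeff n B : ℤ) : ℝ)| * (Real.exp (-2 * π * n * y₁)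
            * Real.exp (-2 * π * (y₀ - y₁)) ^ n) * (n * (2 * π)) := by
          gcongr
      _ = (|((coeff n B : ℤ) : ℝ)| * Real.exp (-2 * π * n * y₁))
            * Real.exp (-2 * π * (y₀ - y₁)) ^ n * (n * (2 * π)) := by ring
      _ ≤ K * Real.exp (-2 * π * (y₀ - y₁)) ^ n * (n * (2 * π)) := by
          gcongr
      _ = (K * (2 * π)) * ((n : ℝ) ^ 1 * Real.exp (-2 * π * (y₀ - y₁)) ^ n) := by ring
  have hopen : IsOpen {x : ℂ | y₀ < x.im} := isOpen_lt continuous_const Complex.continuous_im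
  have hpre : IsPreconnected {x : ℂ | y₀ < x.im} := (convex_halfSpace_im_gt y₀).isPreconnected
  have hzt : z ∈ {x : ℂ | y₀ < x.im} := by
    change y₀ < z.im
    rw [hy₀]; linarith
  have hd : ∀ (n : ℕ) (x : ℂ), x ∈ {x : ℂ | y₀ < x.im} →
      HasDerivAt (fun x => ((coeff n B : ℤ) : ℂ) * qq x ^ n)
        (((coeff n B : ℤ) : ℂ) * (n * (2 * π * Complex.I) * qq x ^ n)) x := by
    intro n x _
    refine HasDerivAt.const_mul _ ?_
    have e : (fun x => qq x ^ n) = fun x => Complex.exp (n * (2 * π * Complex.I) * x) := by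
      funext x
      exact m7_qq_pow x n
    rw [e, m7_qq_pow]
    have h8 : HasDerivAt (fun x : ℂ => (n : ℂ) * (2 * π * Complex.I) * x)
        ((n : ℂ) * (2 * π * Complex.I)) x := by
      simpa using (hasDerivAt_id x).const_mul ((n : ℂ) * (2 * π * Complex.I))
    have h9 := h8.cexp
    rw [mul_comm (Complex.exp _)] at h9
    exact h9
  have hD := hasDerivAt_tsum_of_isPreconnected husum hopen hpre hd hbound hzt
    (h z hz).summable hzt
  refine ⟨?_, ?_⟩
  · exact Summable.of_norm_bounded husum fun n => hbound n z hzt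
  · refine hD.congr_of_eventuallyEq ?_
    filter_upwards [hopen.mem_nhds hzt] with x hx
    have hx' : y₀ < x.im := hx
    exact ((h x (by linarith)).tsum_eq).symm

theorem Ev.differentiableOn {B : PowerSeries ℤ} {g : ℂ → ℂ} (h : Ev B g) :
    DifferentiableOn ℂ g UH := by
  intro z hz
  exact (h.m7_hasDerivAt hz).2.differentiableAt.differentiableWithinAt

theorem Ev.deriv {B : PowerSeries ℤ} {g : ℂ → ℂ} (h : Ev B g) :
    Ev (D B) (fun z => deriv g z / (2 * π * Complex.I)) := by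
  intro z hz
  obtain ⟨hs, hd⟩ := h.m7_hasDerivAt hz
  have h1 := hs.hasSum.div_const (2 * π * Complex.I)
  rw [← hd.deriv] at h1
  refine h1.congr_fun ?_
  intro n
  have hne : (2 * (π : ℂ) * Complex.I) ≠ 0 := Complex.two_pi_I_ne_zero
  unfold D
  rw [coeff_mk]
  push_cast
  field_simp

/-- `q^{-k} g` is bounded for `Im z ≥ y₀ > 0` if the coefficients of `q^n`, `n < k`, vanish. -/
theorem Ev.bound {B : PowerSeries ℤ} {g : ℂ → ℂ} (h : Ev B g) {k : ℕ} (hk : X ^ k ∣ B) {y : ℝ}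
    (hy : 0 < y) : ∃ K : ℝ, ∀ z : ℂ, y ≤ z.im → ‖g z‖ ≤ K * Real.exp (-2 * π * k * z.im) := by
  have hs := h.m7_summable hy
  have hs2 := hs.mul_right (Real.exp (2 * π * k * y))
  refine ⟨∑' n : ℕ, |((coeff n B : ℤ) : ℝ)| * Real.exp (-2 * π * n * y)
    * Real.exp (2 * π * k * y), ?_⟩
  intro z hz
  have hz0 : 0 < z.im := lt_of_lt_of_le hy hz
  rw [← (h z hz0).tsum_eq, ← tsum_mul_right]
  refine tsum_of_norm_bounded (hs2.mul_right _).hasSum ?_
  intro n
  rw [norm_mul, norm_pow, m7_norm_qq_pow]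
  by_cases hn : n < k
  · have : coeff n B = 0 := X_pow_dvd_iff.1 hk n hn
    simp [this]
  · have hn' : k ≤ n := not_lt.1 hn
    have e : ‖((coeff n B : ℤ) : ℂ)‖ = |((coeff n B : ℤ) : ℝ)| := by simp
    have e2 : |((coeff n B : ℤ) : ℝ)| * Real.exp (-2 * π * n * y) * Real.exp (2 * π * k * y)
        * Real.exp (-2 * π * k * z.im) = |((coeff n B : ℤ) : ℝ)| * (Real.exp (-2 * π * n * y)
        * Real.exp (2 * π * k * y) * Real.exp (-2 * π * k * z.im)) := by ring
    rw [e, e2]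
    refine mul_le_mul_of_nonneg_left ?_ (abs_nonneg ((coeff n B : ℤ) : ℝ))
    rw [← Real.exp_add, ← Real.exp_add, Real.exp_le_exp]
    have h1 : (0 : ℝ) ≤ (n : ℝ) - k := by
      have : (k : ℝ) ≤ n := by exact_mod_cast hn'
      linarith
    have h2 := mul_nonneg Real.pi_pos.le (mul_nonneg h1 (sub_nonneg.2 hz))
    nlinarith

theorem m7_Ev_X : Ev X qq := by
  intro z hz
  have h := hasSum_single (f := fun n => ((coeff n (X : PowerSeries ℤ) : ℤ) : ℂ) * qq z ^ n) 1
    (by
      intro n hn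
      simp [coeff_X, hn])
  simpa using h

/-- lower bound for `f`-like functions: if the coefficient of `q^1` is `1` and that of `q^0` is `0` -/
theorem Ev.lower {B : PowerSeries ℤ} {g : ℂ → ℂ} (h : Ev B g) (h0 : coeff 0 B = 0)
    (h1 : coeff 1 B = 1) :
    ∃ Y : ℝ, ∀ z : ℂ, Y ≤ z.im → Real.exp (-2 * π * z.im) / 2 ≤ ‖g z‖ := by
  have hsub := h.sub m7_Ev_X
  have hdvd : X ^ 2 ∣ B - X := by
    rw [X_pow_dvd_iff]
    intro m hm
    interval_cases m
    · simpa using h0
    · simp [h1]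
  obtain ⟨K, hK⟩ := hsub.bound hdvd one_pos
  have hlim : Filter.Tendsto (fun y : ℝ => K * Real.exp (-2 * π * y)) Filter.atTop (nhds (K * 0)) := by
    refine Filter.Tendsto.const_mul _ ?_
    refine Real.tendsto_exp_atBot.comp ?_
    refine Filter.Tendsto.const_mul_atTop_of_neg ?_ Filter.tendsto_id
    have := Real.pi_pos
    linarith
  rw [mul_zero] at hlim
  have hev := hlim.eventually (gt_mem_nhds (show (0 : ℝ) < 1 / 2 by norm_num))
  obtain ⟨Y, hY⟩ := Filter.eventually_atTop.1 hev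
  refine ⟨max Y 1, fun z hz => ?_⟩
  have hz1 : 1 ≤ z.im := le_trans (le_max_right _ _) hz
  have hzY : Y ≤ z.im := le_trans (le_max_left _ _) hz
  have h2 := hK z hz1
  have h3 := hY z.im hzY
  have h4 : ‖qq z‖ = Real.exp (-2 * π * z.im) := m7_norm_qq z
  have h5 : Real.exp (-2 * π * (2 : ℕ) * z.im)
      = Real.exp (-2 * π * z.im) * Real.exp (-2 * π * z.im) := by
    rw [← Real.exp_add]
    congr 1
    push_cast
    ring
  rw [h5, ← mul_assoc] at h2
  have h6 : ‖g z - qq z‖ ≤ 1 / 2 * Real.exp (-2 * π * z.im) :=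
    le_trans h2 (mul_le_mul_of_nonneg_right h3.le (Real.exp_pos _).le)
  have h7 : ‖qq z‖ ≤ ‖g z‖ + ‖g z - qq z‖ := by
    have := norm_sub_le (g z) (g z - qq z)
    simpa using this
  linarith

theorem m7_Ev_monomial (c : ℤ) (k : ℕ) : Ev (C c * X ^ k) (fun z => (c : ℂ) * qq z ^ k) :=
  (Ev.const c).mul (m7_Ev_X.pow k)

theorem Ev.unique {B : PowerSeries ℤ} {g : ℂ → ℂ} (h : Ev B g) {Y : ℝ}
    (h0 : ∀ z : ℂ, 0 < z.im → Y ≤ z.im → g z = 0) : B = 0 := by
  ext n
  rw [map_zero]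
  induction n using Nat.strong_induction_on with
  | _ k ih =>
    set c : ℤ := coeff k B with hc
    have hsub := h.sub (m7_Ev_monomial c k)
    have hdvd : X ^ (k + 1) ∣ B - C c * X ^ k := by
      rw [X_pow_dvd_iff]
      intro m hm
      rw [map_sub, coeff_C_mul, coeff_X_pow]
      rcases Nat.lt_succ_iff_lt_or_eq.1 hm with hm | hm
      · rw [ih m hm, if_neg (ne_of_lt hm)]
        simp
      · rw [hm, if_pos rfl, ← hc]
        simp
    obtain ⟨K, hK⟩ := hsub.bound hdvd one_pos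
    by_contra hcne
    have hc1 : (1 : ℝ) ≤ |(c : ℝ)| := by
      have := Int.one_le_abs hcne
      exact_mod_cast this
    have hlim : Filter.Tendsto (fun y : ℝ => K * Real.exp (-2 * π * y)) Filter.atTop
        (nhds (K * 0)) := by
      refine Filter.Tendsto.const_mul _ ?_
      refine Real.tendsto_exp_atBot.comp ?_
      refine Filter.Tendsto.const_mul_atTop_of_neg ?_ Filter.tendsto_id
      have := Real.pi_pos
      linarith
    rw [mul_zero] at hlim
    have hev := hlim.eventually (gt_mem_nhds (show (0 : ℝ) < 1 / 2 by norm_num))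
    obtain ⟨y, hy1, hy2⟩ := (hev.and (Filter.eventually_ge_atTop (max Y 1))).exists
    have hyY : Y ≤ y := le_trans (le_max_left _ _) hy2
    have hy1' : 1 ≤ y := le_trans (le_max_right _ _) hy2
    have him : ((y : ℂ) * Complex.I).im = y := by simp
    have h2 := hK ((y : ℂ) * Complex.I) (by rw [him]; exact hy1')
    rw [h0 _ (by rw [him]; linarith) (by rw [him]; exact hyY), zero_sub, norm_neg, norm_mul,
      norm_pow, m7_norm_qq_pow, him] at h2
    have h3 : Real.exp (-2 * π * ((k + 1 : ℕ) : ℝ) * y)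
        = Real.exp (-2 * π * k * y) * Real.exp (-2 * π * y) := by
      rw [← Real.exp_add]
      congr 1
      push_cast
      ring
    rw [h3] at h2
    have hpos := Real.exp_pos (-2 * π * k * y)
    have h4 : ‖(c : ℂ)‖ = |(c : ℝ)| := by simp
    rw [h4] at h2
    have h5 : |(c : ℝ)| ≤ K * Real.exp (-2 * π * y) := by
      by_contra hlt
      rw [not_le] at hlt
      have := mul_lt_mul_of_pos_right hlt hpos
      linarith
    linarith

theorem Ev.congr {B : PowerSeries ℤ} {g g' : ℂ → ℂ} (h : Ev B g)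
    (h' : ∀ z : ℂ, 0 < z.im → g z = g' z) : Ev B g' := by
  intro z hz
  rw [← h' z hz]
  exact h z hz

end NC11
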