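import Pool.Agent.NC11.M3
import Pool.Agent.NC11.M4
import Pool.Agent.NC11.M7

set_option autoImplicit false

open scoped Real

namespace NC11

/-! ## [NC-M9] `y |f|` is bounded

Mathlib: `ModularGroup.exists_bound_of_subgroup_invariant` (file ModularForms/Bounds.lean) for the continuous function
`F(z) = f(z) Im z` in absolute value and `Γ = Gamma0 11`: `‖F(γ z)‖ = ‖F(z)‖` by `f_mod` and `Im (γ z) = Im z / |c z + d|²`.
Bounded at `i∞` after every `δ ∈ SL₂(ℤ)`: as in [NC-M6], for `δ = γ S T^j`: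
`‖F(δ z)‖ = ‖F(-1/(z + j))‖ = ‖F((z + j)/11)‖` (Fricke: `‖F(-1/(11 z))‖ = ‖F(z)‖`), and `F → 0` at `i∞`
(`Ev.bound` with `k = 1`, `f_ev`, `an_zero`). -/

noncomputable def m9_G (z : ℂ) : ℝ := ‖f z‖ * z.im

theorem m9_G_mod {a b c d : ℤ} (h : a * d - 11 * b * c = 1) {z : ℂ} (hz : 0 < z.im) :
    m9_G ((a * z + b) / (11 * c * z + d)) = m9_G z := by
  unfold m9_G
  rw [f_mod a b c d h z hz]
  set den : ℂ := 11 * c * z + d with hden
  have hne : den ≠ 0 := by
    intro h0
    have him : den.im = 11 * c * z.im := by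
      rw [hden]; simp
    have hre : den.re = 11 * c * z.re + d := by
      rw [hden]; simp
    rw [h0] at him hre
    simp at him hre
    rcases him with hc | hz0
    · rw [hc] at h
      have hd0 : (d : ℝ) = 0 := by
        rw [hc] at hre
        simpa using hre.symm
      have hd1 : d = 0 := by exact_mod_cast hd0
      rw [hd1] at h
      simp at h
    · exact absurd hz0 hz.ne'
  have hN : 0 < Complex.normSq den := Complex.normSq_pos.2 hne
  have him : ((a * z + b) / den).im = z.im / Complex.normSq den := by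
    have hdetR : (a : ℝ) * d - 11 * b * c = 1 := by exact_mod_cast h
    rw [Complex.div_im]
    have e1 : (a * z + b : ℂ).re = a * z.re + b := by simp
    have e2 : (a * z + b : ℂ).im = a * z.im := by simp
    have e3 : den.re = 11 * c * z.re + d := by rw [hden]; simp
    have e4 : den.im = 11 * c * z.im := by rw [hden]; simp
    rw [e1, e2, e3, e4, ← sub_div]
    congr 1
    linear_combination z.im * hdetR
  rw [him, norm_mul, norm_pow, ← Complex.normSq_eq_norm_sq]
  field_simp

theorem m9_G_add {z : ℂ} (hz : 0 < z.im) (j : ℤ) : m9_G (z + j) = m9_G z := by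
  have h := m9_G_mod (a := 1) (b := j) (c := 0) (d := 1) (by ring) hz
  simpa using h

theorem m9_G_fricke {z : ℂ} (hz : 0 < z.im) : m9_G (-1 / (11 * z)) = m9_G z := by
  unfold m9_G
  rw [f_fricke z hz]
  have hz0 : z ≠ 0 := by
    intro h
    rw [h] at hz
    simp at hz
  have hN : 0 < Complex.normSq z := Complex.normSq_pos.2 hz0
  have him : (-1 / (11 * z)).im = z.im / (11 * Complex.normSq z) := by
    rw [Complex.div_im]
    simp only [Complex.neg_re, Complex.one_re, Complex.neg_im, Complex.one_im, map_mul]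
    have e1 : (11 * z : ℂ).im = 11 * z.im := by simp
    have e2 : Complex.normSq 11 = 11 * 11 := by
      exact Complex.normSq_ofNat 11
    rw [e1, e2]
    field_simp
    ring
  rw [him, norm_mul, norm_mul, norm_pow, norm_neg, ← Complex.normSq_eq_norm_sq]
  have e3 : ‖(11 : ℂ)‖ = 11 := by simp
  rw [e3]
  field_simp

theorem m9_dvd : PowerSeries.X ^ 1 ∣ A := by
  rw [pow_one, A_eq]
  exact Dvd.intro _ rfl

theorem m9_exp_bound {t : ℝ} : t * Real.exp (-2 * π * t) ≤ 1 := by
  by_cases ht : t ≤ 0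
  · have := mul_nonneg (neg_nonneg.2 ht) (Real.exp_pos (-2 * π * t)).le
    linarith
  · have ht' : 0 < t := not_le.1 ht
    have h1 : t ≤ Real.exp (2 * π * t) := by
      have h2 := Real.add_one_le_exp (2 * π * t)
      have h3 := Real.pi_gt_three
      nlinarith
    have h4 : Real.exp (2 * π * t) * Real.exp (-2 * π * t) = 1 := by
      rw [← Real.exp_add]
      simp
    calc t * Real.exp (-2 * π * t) ≤ Real.exp (2 * π * t) * Real.exp (-2 * π * t) :=
          mul_le_mul_of_nonneg_right h1 (Real.exp_pos _).le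
      _ = 1 := h4

theorem m9_G_inf : ∃ K : ℝ, 0 < K ∧ ∀ z : ℂ, 1 / 11 ≤ z.im → m9_G z ≤ K := by
  obtain ⟨K, hK⟩ := f_ev.bound m9_dvd (y := 1 / 11) (by norm_num)
  refine ⟨max K 1, lt_of_lt_of_le one_pos (le_max_right _ _), fun z hz => ?_⟩
  have hz0 : 0 < z.im := lt_of_lt_of_le (by norm_num) hz
  unfold m9_G
  have h1 := hK z hz
  have h2 : Real.exp (-2 * π * ((1 : ℕ) : ℝ) * z.im) = Real.exp (-2 * π * z.im) := by
    congr 1
    push_cast
    ring
  rw [h2] at h1
  have h3 : K * Real.exp (-2 * π * z.im) ≤ max K 1 * Real.exp (-2 * π * z.im) :=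
    mul_le_mul_of_nonneg_right (le_max_left _ _) (Real.exp_pos _).le
  have hm : 0 ≤ max K 1 := le_trans zero_le_one (le_max_right _ _)
  calc ‖f z‖ * z.im ≤ (max K 1 * Real.exp (-2 * π * z.im)) * z.im :=
        mul_le_mul_of_nonneg_right (le_trans h1 h3) hz0.le
    _ = max K 1 * (z.im * Real.exp (-2 * π * z.im)) := by ring
    _ ≤ max K 1 * 1 := mul_le_mul_of_nonneg_left m9_exp_bound hm
    _ = max K 1 := mul_one _

/-- for every `δ ∈ SL₂(ℤ)` -/
theorem m9_G_SL {a b c d : ℤ} (h : a * d - b * c = 1) {z : ℂ} (hz : 0 < z.im) :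
    m9_G ((a * z + b) / (c * z + d)) = m9_G z ∨
    ∃ j : ℤ, m9_G ((a * z + b) / (c * z + d)) = m9_G ((z + j) / 11) := by
  by_cases hc : (11 : ℤ) ∣ c
  · left
    obtain ⟨c', hc'⟩ := hc
    have h1 : a * d - 11 * b * c' = 1 := by
      rw [hc'] at h
      linarith
    have h2 := m9_G_mod h1 hz
    rw [hc']
    push_cast
    exact h2
  · right
    have hp : Prime (11 : ℤ) := by norm_num
    have hco : IsCoprime (11 : ℤ) c := (Prime.coprime_iff_not_dvd hp).2 hc
    obtain ⟨u, v, huv⟩ := hco
    -- `u * 11 + v * c = 1`; choose `j = v * d`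
    set j : ℤ := v * d with hj
    have hd' : d - c * j = 11 * (u * d) := by
      rw [hj]
      linear_combination (-d) * huv
    refine ⟨j, ?_⟩
    have hzj : 0 < ((z + j) / 11 : ℂ).im := by
      rw [Complex.div_ofNat_im]
      simp only [Complex.add_im, Complex.intCast_im, add_zero]
      positivity
    rw [← m9_G_fricke hzj]
    -- `γ = (-(b - a j), a; -(d - c j), c)`
    have h3 : (-(b - a * j)) * c - 11 * a * (-(u * d)) = 1 := by
      linear_combination h + a * (-hd')
    have hz1 : 0 < (z + j).im := by simpa using hz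
    have hzne : z + j ≠ 0 := by
      intro h0
      rw [h0] at hz1
      simp at hz1
    have e0 : (-1 / (11 * ((z + j) / 11)) : ℂ) = -1 / (z + j) := by
      congr 1
      field_simp
    rw [e0]
    have hw : 0 < (-1 / (z + j) : ℂ).im := by
      rw [Complex.div_im]
      simp only [Complex.neg_re, Complex.one_re, Complex.neg_im, Complex.one_im]
      have := Complex.normSq_pos.2 hzne
      have h5 : 0 < (z + j).im / Complex.normSq (z + j) := div_pos hz1 this
      have h6 : -0 * (z + (j : ℂ)).re / Complex.normSq (z + j)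
        - -1 * (z + (j : ℂ)).im / Complex.normSq (z + j)
        = (z + (j : ℂ)).im / Complex.normSq (z + j) := by ring
      rw [h6]
      exact h5
    rw [← m9_G_mod h3 hw]
    congr 1
    have hd'' : ((d : ℂ) - c * j) = 11 * (u * d) := by exact_mod_cast hd'
    push_cast
    have hnum : ((-(b - a * j)) * (-1 / (z + j)) + a : ℂ) = (a * z + b) / (z + j) := by
      field_simp
      ring
    have hdenom : (11 * (-(u * d)) * (-1 / (z + j)) + c : ℂ) = (c * z + d) / (z + j) := by
      field_simp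
      linear_combination (-1 : ℂ) * hd''
    rw [hnum, hdenom, div_div_div_cancel_right₀ hzne]

theorem f_bound : ∃ K : ℝ, 0 < K ∧ ∀ z : ℂ, 0 < z.im → ‖f z‖ * z.im ≤ K := by
  obtain ⟨K, hK0, hK⟩ := m9_G_inf
  set F : UpperHalfPlane → ℝ := fun τ => m9_G τ with hF
  have hcont : Continuous F := by
    rw [hF]
    unfold m9_G
    have h1 : ContinuousOn f UH := f_diff.continuousOn
    have h2 : Continuous fun τ : UpperHalfPlane => f τ := by
      refine h1.comp_continuous UpperHalfPlane.continuous_coe ?_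
      intro τ
      exact τ.im_pos
    exact h2.norm.mul (Complex.continuous_im.comp UpperHalfPlane.continuous_coe)
  have hsl : ∀ (g : Matrix.SpecialLinearGroup (Fin 2) ℤ) (τ : UpperHalfPlane),
      F (g • τ) = m9_G (((g 0 0 : ℤ) * (τ : ℂ) + (g 0 1 : ℤ)) / ((g 1 0 : ℤ) * (τ : ℂ) + (g 1 1 : ℤ))) := by
    intro g τ
    rw [hF]
    simp only
    rw [UpperHalfPlane.coe_specialLinearGroup_apply]
    simp
  have hdet : ∀ g : Matrix.SpecialLinearGroup (Fin 2) ℤ, g 0 0 * g 1 1 - g 0 1 * g 1 0 = 1 := by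
    intro g
    have := g.det_coe
    rw [Matrix.det_fin_two] at this
    exact this
  have hinf : ∀ g : Matrix.SpecialLinearGroup (Fin 2) ℤ,
      (fun τ : UpperHalfPlane => F (g • τ)) =O[UpperHalfPlane.atImInfty]
        fun z : UpperHalfPlane => (z.im) ^ (0 : ℝ) := by
    intro g
    refine Asymptotics.IsBigO.of_bound K ?_
    rw [Filter.Eventually, UpperHalfPlane.atImInfty_mem]
    refine ⟨1, fun τ hτ => ?_⟩
    change ‖F (g • τ)‖ ≤ K * ‖(τ.im) ^ (0 : ℝ)‖
    rw [Real.rpow_zero, norm_one, mul_one, hsl]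
    have him : (τ : ℂ).im = τ.im := rfl
    have hpos : 0 < (τ : ℂ).im := τ.im_pos
    have hG : ∀ z : ℂ, 1 / 11 ≤ z.im → ‖m9_G z‖ ≤ K := by
      intro z hz
      have h0 : 0 ≤ m9_G z := mul_nonneg (norm_nonneg _) (le_trans (by norm_num) hz)
      rw [Real.norm_of_nonneg h0]
      exact hK z hz
    rcases m9_G_SL (hdet g) hpos with h | ⟨j, h⟩
    · rw [h]
      refine hG _ ?_
      rw [him]
      linarith
    · rw [h]
      refine hG _ ?_
      rw [Complex.div_ofNat_im]
      simp only [Complex.add_im, Complex.intCast_im, add_zero]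
      rw [him]
      linarith
  have hinv : ∀ g ∈ CongruenceSubgroup.Gamma0 11, ∀ τ : UpperHalfPlane, F (g • τ) = F τ := by
    intro g hg τ
    rw [hsl]
    have h1 : (11 : ℤ) ∣ g 1 0 := by
      have := CongruenceSubgroup.Gamma0_mem.1 hg
      exact (ZMod.intCast_zmod_eq_zero_iff_dvd _ _).1 this
    obtain ⟨c', hc'⟩ := h1
    have hd := hdet g
    rw [hc'] at hd ⊢
    have h2 := m9_G_mod (a := g 0 0) (b := g 0 1) (c := c') (d := g 1 1) (by linarith)
      (z := (τ : ℂ)) τ.im_pos
    push_cast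
    exact h2
  obtain ⟨C, hC⟩ := ModularGroup.exists_bound_of_subgroup_invariant_of_isBigO hcont le_rfl hinf hinv
  refine ⟨max C 1, lt_of_lt_of_le one_pos (le_max_right _ _), fun z hz => ?_⟩
  have h1 := hC ⟨z, hz⟩
  rw [Real.rpow_zero, mul_one] at h1
  exact le_trans (le_trans (le_abs_self _) h1) (le_max_left _ _)

theorem m9_integral_exp (k : ℤ) :
    (∫ x in (0 : ℝ)..1, Complex.exp (2 * π * Complex.I * k * x)) = if k = 0 then 1 else 0 := by
  split_ifs with hk
  · rw [hk]
    simp
  · have hc : (2 * π * Complex.I * k : ℂ) ≠ 0 :=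
      mul_ne_zero Complex.two_pi_I_ne_zero (by exact_mod_cast hk)
    have h := integral_exp_mul_complex (a := 0) (b := 1) hc
    rw [h]
    have e : (2 * π * Complex.I * k * ((1 : ℝ) : ℂ)) = k * (2 * π * Complex.I) := by
      push_cast
      ring
    rw [e, Complex.exp_int_mul_two_pi_mul_I]
    simp

theorem m9_coeff {y : ℝ} (hy : 0 < y) (n : ℕ) :
    fourierCoeffOn (zero_lt_one' ℝ) (fun x : ℝ => f (x + y * Complex.I)) (n : ℤ)
      = (an n : ℂ) * Real.exp (-2 * π * n * y) := by
  rw [fourierCoeffOn_eq_integral]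
  have hz : ∀ x : ℝ, 0 < ((x : ℂ) + y * Complex.I).im := by
    intro x
    simpa using hy
  have him : ∀ x : ℝ, ((x : ℂ) + y * Complex.I).im = y := by
    intro x
    simp
  have hq : ∀ (x : ℝ) (m : ℕ), qq (x + y * Complex.I) ^ m
      = Complex.exp (2 * π * Complex.I * m * x) * Real.exp (-2 * π * m * y) := by
    intro x m
    rw [m7_qq_pow, Complex.ofReal_exp, ← Complex.exp_add]
    congr 1
    push_cast
    linear_combination (2 * π * m * y : ℂ) * Complex.I_mul_I
  have hsum := f_ev.m7_summable hy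
  have key := intervalIntegral.hasSum_integral_of_dominated_convergence (μ := MeasureTheory.volume)
    (a := 0) (b := 1)
    (F := fun (m : ℕ) (x : ℝ) => ((an m : ℂ) * Real.exp (-2 * π * m * y)) *
      Complex.exp (2 * π * Complex.I * ((m : ℤ) - n : ℤ) * x))
    (f := fun x : ℝ => fourier (-(n : ℤ)) (x : AddCircle ((1 : ℝ) - 0)) • f (x + y * Complex.I))
    (bound := fun (m : ℕ) (_ : ℝ) => |((PowerSeries.coeff m A : ℤ) : ℝ)|
      * Real.exp (-2 * π * m * y))
    (by
      intro m
      apply Continuous.aestronglyMeasurable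
      fun_prop)
    (by
      intro m
      refine Filter.Eventually.of_forall fun x _ => ?_
      rw [norm_mul, norm_mul, Complex.norm_exp]
      have e1 : (2 * π * Complex.I * ((m : ℤ) - n : ℤ) * x : ℂ).re = 0 := by
        have : (2 * π * Complex.I * ((m : ℤ) - n : ℤ) * x : ℂ)
          = ((2 * π * ((m : ℤ) - n : ℤ) * x : ℝ) : ℂ) * Complex.I := by
          push_cast
          ring
        rw [this]
        simp
      rw [e1, Real.exp_zero, mul_one]
      have e2 : PowerSeries.coeff m A = an m := by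
        unfold A
        rw [PowerSeries.coeff_mk]
      rw [e2, Complex.norm_real, Real.norm_of_nonneg (Real.exp_pos _).le]
      simp)
    (Filter.Eventually.of_forall fun _ _ => hsum)
    intervalIntegrable_const
    (by
      refine Filter.Eventually.of_forall fun x _ => ?_
      have h1 := (f_ev _ (hz x)).mul_left (fourier (-(n : ℤ)) (x : AddCircle ((1 : ℝ) - 0)))
      rw [smul_eq_mul]
      refine h1.congr_fun ?_
      intro m
      have e2 : PowerSeries.coeff m A = an m := by
        unfold A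
        rw [PowerSeries.coeff_mk]
      rw [e2, hq, fourier_coe_apply]
      have e3 : Complex.exp (2 * π * Complex.I * ((m : ℤ) - n : ℤ) * x)
          = Complex.exp (2 * π * Complex.I * ((-(n : ℤ) : ℤ) : ℂ) * x / ((1 - 0 : ℝ) : ℂ))
            * Complex.exp (2 * π * Complex.I * m * x) := by
        rw [← Complex.exp_add]
        congr 1
        push_cast
        ring
      rw [e3]
      ring)
  have h2 : ∀ m : ℕ, (∫ x in (0 : ℝ)..1, ((an m : ℂ) * Real.exp (-2 * π * m * y)) *
      Complex.exp (2 * π * Complex.I * ((m : ℤ) - n : ℤ) * x))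
      = if m = n then (an n : ℂ) * Real.exp (-2 * π * n * y) else 0 := by
    intro m
    rw [intervalIntegral.integral_const_mul, m9_integral_exp]
    by_cases hmn : m = n
    · rw [hmn]
      simp
    · have : ((m : ℤ) - n) ≠ 0 := by
        intro h
        apply hmn
        have : (m : ℤ) = n := by linarith
        exact_mod_cast this
      rw [if_neg this, if_neg hmn, mul_zero]
  simp_rw [h2] at key
  have h3 := hasSum_ite_eq n ((an n : ℂ) * Real.exp (-2 * π * n * y))
  have h4 := key.unique h3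
  rw [h4]
  simp

/-- `∑_{n ≤ N} |a(n)|² ≤ K N²`: Parseval on the line `Im z = 1/N`
(`∫₀¹ |f(x + i y)|² dx = ∑ |a(n)|² e^{-4 π n y} ≤ K / y²`). -/
theorem sum_sq_bound : ∃ K : ℝ, ∀ N : ℕ, ∑ n ∈ Finset.range (N + 1), (an n : ℝ) ^ 2 ≤ K * N ^ 2 := by
  obtain ⟨K, hK0, hK⟩ := f_bound
  refine ⟨Real.exp (4 * π) * K ^ 2, fun N => ?_⟩
  rcases Nat.eq_zero_or_pos N with hN | hN
  · rw [hN]
    simp [an_zero]
  have hNR : (0 : ℝ) < N := by exact_mod_cast hN
  set y : ℝ := 1 / N with hy
  have hy0 : 0 < y := by positivity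
  have hcont : Continuous fun x : ℝ => f (x + y * Complex.I) := by
    have h1 : ContinuousOn f UH := f_diff.continuousOn
    refine h1.comp_continuous (by fun_prop) ?_
    intro x
    change 0 < ((x : ℂ) + y * Complex.I).im
    simpa using hy0
  have hbd : ∀ x : ℝ, ‖f (x + y * Complex.I)‖ ≤ K * N := by
    intro x
    have him : ((x : ℂ) + y * Complex.I).im = y := by simp
    have h1 := hK (x + y * Complex.I) (by rw [him]; exact hy0)
    rw [him, hy] at h1
    have h2 : ‖f (x + y * Complex.I)‖ = (‖f (x + y * Complex.I)‖ * (1 / N)) * N := by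
      field_simp
    rw [h2]
    exact mul_le_mul_of_nonneg_right h1 hNR.le
  have hL2 : MeasureTheory.MemLp (fun x : ℝ => f (x + y * Complex.I)) 2
      (MeasureTheory.volume.restrict (Set.Ioc 0 1)) := by
    refine MeasureTheory.MemLp.of_bound hcont.aestronglyMeasurable (K * N) ?_
    exact Filter.Eventually.of_forall hbd
  have hP := hasSum_sq_fourierCoeffOn (zero_lt_one' ℝ) hL2
  have hI : ((1 : ℝ) - 0)⁻¹ • (∫ x in (0 : ℝ)..1, ‖f (x + y * Complex.I)‖ ^ 2) ≤ (K * N) ^ 2 := by
    rw [sub_zero, inv_one, one_smul]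
    have h1 : (∫ x in (0 : ℝ)..1, ‖f (x + y * Complex.I)‖ ^ 2) ≤ ∫ x in (0 : ℝ)..1, (K * N) ^ 2 := by
      refine intervalIntegral.integral_mono_on zero_le_one
        ((hcont.norm.pow 2).intervalIntegrable 0 1) ?_ ?_
      · exact intervalIntegrable_const
      · intro x _
        exact pow_le_pow_left₀ (norm_nonneg _) (hbd x) 2
    simpa using h1
  have hS := sum_le_hasSum ((Finset.range (N + 1)).map ⟨((↑) : ℕ → ℤ), Nat.cast_injective⟩)
    (fun i _ => by positivity) hP
  rw [Finset.sum_map] at hS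
  simp only [Function.Embedding.coeFn_mk] at hS
  have hterm : ∀ n ∈ Finset.range (N + 1), Real.exp (-(4 * π)) * (an n : ℝ) ^ 2
      ≤ ‖fourierCoeffOn (zero_lt_one' ℝ) (fun x : ℝ => f (x + y * Complex.I)) (n : ℤ)‖ ^ 2 := by
    intro n hn
    have hnN : (n : ℝ) ≤ N := by
      have := Finset.mem_range_succ_iff.1 hn
      exact_mod_cast this
    rw [m9_coeff hy0, norm_mul, mul_pow, Complex.norm_real, Real.norm_of_nonneg (Real.exp_pos _).le]
    have e1 : ‖(an n : ℂ)‖ ^ 2 = (an n : ℝ) ^ 2 := by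
      simp
    rw [e1, mul_comm]
    refine mul_le_mul_of_nonneg_left ?_ (sq_nonneg _)
    rw [← Real.exp_nat_mul, Real.exp_le_exp]
    have h1 : (n : ℝ) * y ≤ 1 := by
      rw [hy, mul_one_div, div_le_one hNR]
      exact hnN
    have h2 := mul_le_mul_of_nonneg_left h1 Real.pi_pos.le
    push_cast
    nlinarith
  have h5 := (Finset.sum_le_sum hterm).trans (hS.trans hI)
  rw [← Finset.mul_sum] at h5
  have h6 : Real.exp (4 * π) * Real.exp (-(4 * π)) = 1 := by
    rw [← Real.exp_add]
    simp
  calc ∑ n ∈ Finset.range (N + 1), (an n : ℝ) ^ 2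
      = Real.exp (4 * π) * (Real.exp (-(4 * π)) * ∑ n ∈ Finset.range (N + 1), (an n : ℝ) ^ 2) := by
        rw [← mul_assoc, h6, one_mul]
    _ ≤ Real.exp (4 * π) * (K * N) ^ 2 :=
        mul_le_mul_of_nonneg_left h5 (Real.exp_pos _).le
    _ = Real.exp (4 * π) * K ^ 2 * N ^ 2 := by ring

end NC11
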