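import Pool.Agent.NC11.M3
import Pool.Agent.NC11.M4
import Pool.Agent.NC11.M6
import Pool.Agent.NC11.M7
import Pool.Agent.NC11.M9
import Pool.Agent.NC11.M10a

set_option autoImplicit false

open scoped Real
open PowerSeries

namespace NC11

/-! ## [NC-M10b] `T_p f = a(p) f`

`T_p f` has the `q`-expansion `∑ (a(p n) + p a(n/p)) q^n` (`∑_j e^{2πi n j/p} = p` if `p ∣ n`, else `0`).
`g = T_p f / f` satisfies the assumptions of `const_of_inv` (`f` has no zeros; bounded at `i∞` by `Ev.bound` with `k = 1` and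
`Ev.lower`); so `T_p f = c f`; comparison of the coefficients of `q¹`: `c = a(p)`.
`an_bound`: let `K₀ = sup ‖f z‖ Im z` (finite by `f_bound`, positive); from `a(p) f = T_p f`:
`|a(p)| ‖f z‖ y ≤ p ‖f(p z)‖ y + (1/p) ∑ ‖f((z + j)/p)‖ y ≤ K₀ + p K₀`. -/

private theorem qq_natmul (p : ℕ) (z : ℂ) : qq (p * z) = qq z ^ p := by
  unfold qq
  rw [← Complex.exp_nat_mul]
  congr 1
  ring

private theorem qq_divpow {p : ℕ} (hp0 : (p : ℂ) ≠ 0) (z : ℂ) : qq (z / p) ^ p = qq z := by
  rw [← qq_natmul]
  congr 1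
  field_simp

private theorem qq_add (x y : ℂ) : qq (x + y) = qq x * qq y := by
  unfold qq
  rw [← Complex.exp_add]
  congr 1
  ring

/-- the sum of the powers of a root of unity -/
private theorem root_sum {p : ℕ} (hp : p.Prime) (n : ℕ) :
    ∑ j ∈ Finset.range p, qq ((j : ℂ) / p) ^ n = if p ∣ n then (p : ℂ) else 0 := by
  have hp0 : (p : ℂ) ≠ 0 := by exact_mod_cast hp.ne_zero
  have h1 : ∀ j : ℕ, qq ((j : ℂ) / p) ^ n = (qq ((n : ℂ) / p)) ^ j := by
    intro j
    rw [← qq_natmul, ← qq_natmul]
    congr 1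
    ring
  simp only [h1]
  have hpp : qq ((n : ℂ) / p) ^ p = 1 := by
    rw [qq_divpow hp0]
    unfold qq
    have := Complex.exp_int_mul_two_pi_mul_I (n : ℤ)
    rw [← this]
    congr 1
    push_cast
    ring
  by_cases hd : p ∣ n
  · rw [if_pos hd]
    obtain ⟨m, rfl⟩ := hd
    have : qq (((p * m : ℕ) : ℂ) / p) = 1 := by
      unfold qq
      have := Complex.exp_int_mul_two_pi_mul_I (m : ℤ)
      rw [← this]
      congr 1
      push_cast
      field_simp
    rw [this]
    simp
  · rw [if_neg hd]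
    have hne : qq ((n : ℂ) / p) ≠ 1 := by
      unfold qq
      intro h
      rw [Complex.exp_eq_one_iff] at h
      obtain ⟨k, hk⟩ := h
      have h2 : (n : ℂ) = k * p := by
        have hpi : (2 * π * Complex.I : ℂ) ≠ 0 := Complex.two_pi_I_ne_zero
        have : (2 * π * Complex.I : ℂ) * ((n : ℂ) / p) = (2 * π * Complex.I : ℂ) * k := by
          rw [hk]; ring
        have h3 := mul_left_cancel₀ hpi this
        rw [← h3]
        field_simp
      have h3 : (n : ℤ) = k * p := by exact_mod_cast h2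
      apply hd
      have : (p : ℤ) ∣ n := ⟨k, by rw [h3]; ring⟩
      exact_mod_cast this
    have := mul_neg_geom_sum (qq ((n : ℂ) / p)) p
    rw [hpp, sub_self] at this
    rcases mul_eq_zero.mp this with h | h
    · exact absurd (sub_eq_zero.mp h).symm hne
    · exact h

theorem T_ev {p : ℕ} (hp : p.Prime) {B : PowerSeries ℤ} {g : ℂ → ℂ} (h : Ev B g) :
    Ev (PowerSeries.mk fun n => coeff (p * n) B + if p ∣ n then p * coeff (n / p) B else 0)
      (T p g) := by
  intro z hz
  have hp0 : (p : ℂ) ≠ 0 := by exact_mod_cast hp.ne_zero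
  have hpR : (0 : ℝ) < p := by exact_mod_cast hp.pos
  have hinj : Function.Injective (fun n : ℕ => p * n) := fun a b hab =>
    Nat.eq_of_mul_eq_mul_left hp.pos hab
  -- first part
  have h1 : HasSum (fun m : ℕ => if p ∣ m then ((coeff (m / p) B : ℤ) : ℂ) * qq z ^ m else 0)
      (g (p * z)) := by
    have hz' : 0 < ((p : ℂ) * z).im := by
      simp only [Complex.mul_im, Complex.natCast_re, Complex.natCast_im, zero_mul, add_zero]
      positivity
    have h2 := h _ hz'
    rw [← hinj.hasSum_iff]
    · convert h2 using 1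
      funext n
      simp only [Function.comp]
      rw [if_pos (Dvd.intro n rfl), Nat.mul_div_cancel_left n hp.pos, qq_natmul, pow_mul]
    · intro x hx
      rw [if_neg]
      rintro ⟨m, rfl⟩
      exact hx ⟨m, rfl⟩
  -- second part
  have h2 : HasSum (fun m : ℕ => (p : ℂ) * ((coeff (p * m) B : ℤ) : ℂ) * qq z ^ m)
      (∑ j ∈ Finset.range p, g ((z + j) / p)) := by
    have h3 : HasSum (fun n : ℕ => ∑ j ∈ Finset.range p,
        ((coeff n B : ℤ) : ℂ) * qq ((z + j) / p) ^ n)
        (∑ j ∈ Finset.range p, g ((z + j) / p)) := by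
      apply hasSum_sum
      intro j _
      apply h
      rw [Complex.div_natCast_im, Complex.add_im, Complex.natCast_im, add_zero]
      positivity
    have h4 : ∀ n : ℕ, ∑ j ∈ Finset.range p, ((coeff n B : ℤ) : ℂ) * qq ((z + j) / p) ^ n
        = if p ∣ n then ((coeff n B : ℤ) : ℂ) * qq (z / p) ^ n * p else 0 := by
      intro n
      have h5 : ∀ j : ℕ, ((coeff n B : ℤ) : ℂ) * qq ((z + j) / p) ^ n
          = ((coeff n B : ℤ) : ℂ) * qq (z / p) ^ n * qq ((j : ℂ) / p) ^ n := by
        intro j
        rw [add_div, qq_add, mul_pow]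
        ring
      simp only [h5]
      rw [← Finset.mul_sum, root_sum hp]
      split_ifs <;> simp
    simp only [h4] at h3
    rw [← hinj.hasSum_iff] at h3
    · convert h3 using 1
      funext n
      simp only [Function.comp]
      rw [if_pos (Dvd.intro n rfl), pow_mul, qq_divpow hp0]
      ring
    · intro x hx
      rw [if_neg]
      rintro ⟨m, rfl⟩
      exact hx ⟨m, rfl⟩
  have h3 := (h1.mul_left (p : ℂ)).add (h2.mul_left (1 / (p : ℂ)))
  have h4 : (fun n => ((coeff n (PowerSeries.mk fun n => coeff (p * n) B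
        + if p ∣ n then (p : ℤ) * coeff (n / p) B else 0) : ℤ) : ℂ) * qq z ^ n)
      = fun n => ((p : ℂ) * if p ∣ n then ((coeff (n / p) B : ℤ) : ℂ) * qq z ^ n else 0)
        + 1 / (p : ℂ) * ((p : ℂ) * ((coeff (p * n) B : ℤ) : ℂ) * qq z ^ n) := by
    funext n
    rw [coeff_mk]
    split_ifs with hd
    · push_cast
      field_simp
      ring
    · push_cast
      field_simp
      ring
  rw [h4]
  exact h3

private theorem Af_ev : Ev A f := f_ev

private theorem X_dvd_T {p : ℕ} : (X : PowerSeries ℤ) ^ 1 ∣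
    PowerSeries.mk fun n => coeff (p * n) A + if p ∣ n then (p : ℤ) * coeff (n / p) A else 0 := by
  rw [pow_one, PowerSeries.X_dvd_iff, ← PowerSeries.coeff_zero_eq_constantCoeff_apply, coeff_mk]
  have h0 : coeff 0 A = 0 := by rw [A, coeff_mk, an_zero]
  simp [h0]

private theorem A_coeff (n : ℕ) : coeff n A = an n := by rw [A, coeff_mk]

private theorem lower_f : ∃ Y : ℝ, ∀ z : ℂ, Y ≤ z.im → Real.exp (-2 * π * z.im) / 2 ≤ ‖f z‖ :=
  Ev.lower f_ev (by rw [A_coeff, an_zero]) (by rw [A_coeff, an_one])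

theorem T_f {p : ℕ} (hp : p.Prime) (hp11 : p ≠ 11) {z : ℂ} (hz : 0 < z.im) :
    T p f z = an p * f z := by
  have hT := T_ev hp f_ev
  obtain ⟨Y, hY⟩ := lower_f
  have hconst : ∀ z z' : ℂ, 0 < z.im → 0 < z'.im → T p f z / f z = T p f z' / f z' := by
    apply const_of_inv (g := fun z => T p f z / f z)
    · exact hT.differentiableOn.div f_diff (fun x hx => f_ne_zero hx)
    · intro a b c d hdet z hz
      have h1 := T_mod hp hp11 f_mod a b c d hdet z hz
      have h2 := f_mod a b c d hdet z hz
      have h3 : (11 * (c : ℂ) * z + d) ≠ 0 := by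
        intro h
        have him : (11 * (c : ℝ)) * z.im = 0 := by
          have := congrArg Complex.im h
          simpa using this
        have hc : c = 0 := by
          rcases mul_eq_zero.mp him with h4 | h4
          · have : (c : ℝ) = 0 := by linarith
            exact_mod_cast this
          · exact absurd h4 hz.ne'
        subst hc
        have hd : (d : ℂ) = 0 := by simpa using h
        have hd' : d = 0 := by exact_mod_cast hd
        subst hd'
        simp at hdet
      simp only [h1, h2]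
      rw [pow_zero, one_mul, mul_div_mul_left _ _ (pow_ne_zero 2 h3)]
    · intro z hz
      have h1 := T_fricke hp hp11 f_mod f_fricke z hz
      have h2 := f_fricke z hz
      have hz0 : z ≠ 0 := by
        rintro rfl
        simp at hz
      simp only [h1, h2]
      rw [mul_div_mul_left]
      exact mul_ne_zero (by norm_num) (pow_ne_zero 2 hz0)
    · obtain ⟨K, hK⟩ := hT.bound X_dvd_T (y := 1) one_pos
      refine ⟨2 * K, max Y 1, ?_⟩
      intro z hz
      have h1 := hK z (le_trans (le_max_right _ _) hz)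
      have h2 := hY z (le_trans (le_max_left _ _) hz)
      have he : 0 < Real.exp (-2 * π * z.im) := Real.exp_pos _
      rw [norm_div, div_le_iff₀ (by linarith)]
      have h3 : -2 * π * ((1 : ℕ) : ℝ) * z.im = -2 * π * z.im := by push_cast; ring
      rw [h3] at h1
      have hK0 : 0 ≤ K := by
        by_contra hneg
        push Not at hneg
        have := norm_nonneg (T p f z)
        nlinarith
      calc ‖T p f z‖ ≤ K * Real.exp (-2 * π * z.im) := h1
        _ = 2 * K * (Real.exp (-2 * π * z.im) / 2) := by ring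
        _ ≤ 2 * K * ‖f z‖ := by
            apply mul_le_mul_of_nonneg_left h2
            linarith
  -- the constant
  obtain ⟨c, hc⟩ : ∃ c : ℂ, ∀ z : ℂ, 0 < z.im → T p f z = c * f z := by
    refine ⟨T p f Complex.I / f Complex.I, ?_⟩
    intro z hz
    rw [← hconst z Complex.I hz (by simp), div_mul_cancel₀ _ (f_ne_zero hz)]
  have hdiff : Ev ((PowerSeries.mk fun n => coeff (p * n) A +
      if p ∣ n then (p : ℤ) * coeff (n / p) A else 0) - C (an p) * A)
      (fun z => T p f z - (an p : ℂ) * f z) := hT.sub ((Ev.const (an p)).mul f_ev)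
  have hX2 : (X : PowerSeries ℤ) ^ 2 ∣ ((PowerSeries.mk fun n => coeff (p * n) A +
      if p ∣ n then (p : ℤ) * coeff (n / p) A else 0) - C (an p) * A) := by
    rw [PowerSeries.X_pow_dvd_iff]
    intro m hm
    rw [map_sub, coeff_mk, PowerSeries.coeff_C_mul, A_coeff, A_coeff, A_coeff]
    have hm' : m = 0 ∨ m = 1 := by omega
    rcases hm' with rfl | rfl
    · simp [an_zero]
    · rw [if_neg hp.not_dvd_one]
      simp [an_one]
  have hcp : c = an p := by
    obtain ⟨K, hK⟩ := hdiff.bound hX2 (y := 1) one_pos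
    by_contra hne
    have hpos : 0 < ‖c - an p‖ := norm_pos_iff.mpr (sub_ne_zero.mpr hne)
    have hlim : Filter.Tendsto (fun y : ℝ => 2 * K * Real.exp (-2 * π * y)) Filter.atTop
        (nhds (2 * K * 0)) := by
      apply Filter.Tendsto.const_mul
      apply Real.tendsto_exp_atBot.comp
      exact Filter.tendsto_id.const_mul_atTop_of_neg (by linarith [Real.pi_pos])
    rw [mul_zero] at hlim
    have hev := (hlim.eventually (gt_mem_nhds hpos)).and
      ((Filter.eventually_ge_atTop Y).and (Filter.eventually_ge_atTop (1 : ℝ)))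
    obtain ⟨y, hy1, hy2, hy3⟩ := hev.exists
    have hy0 : 0 < y := by linarith
    have him : ((y : ℂ) * Complex.I).im = y := by simp
    have h1 := hK ((y : ℂ) * Complex.I) (by rw [him]; exact hy3)
    have h2 := hY ((y : ℂ) * Complex.I) (by rw [him]; exact hy2)
    have h3 := hc ((y : ℂ) * Complex.I) (by rw [him]; exact hy0)
    simp only [h3, him] at h1
    rw [him] at h2
    rw [← sub_mul, norm_mul] at h1
    have he : 0 < Real.exp (-2 * π * y) := Real.exp_pos _
    have he2 : Real.exp (-2 * π * ((2 : ℕ) : ℝ) * y)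
        = Real.exp (-2 * π * y) * Real.exp (-2 * π * y) := by
      rw [← Real.exp_add]
      congr 1
      push_cast
      ring
    rw [he2] at h1
    have h4 : ‖c - an p‖ * (Real.exp (-2 * π * y) / 2)
        ≤ K * (Real.exp (-2 * π * y) * Real.exp (-2 * π * y)) :=
      le_trans (mul_le_mul_of_nonneg_left h2 hpos.le) h1
    have h5 : ‖c - an p‖ ≤ 2 * K * Real.exp (-2 * π * y) := by
      have h6 : ‖c - an p‖ * Real.exp (-2 * π * y)
          ≤ (2 * K * Real.exp (-2 * π * y)) * Real.exp (-2 * π * y) := by nlinarith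
      exact le_of_mul_le_mul_right h6 he
    linarith
  rw [hc z hz, hcp]

theorem hecke {p : ℕ} (hp : p.Prime) (hp11 : p ≠ 11) (n : ℕ) :
    an (p * n) + (if p ∣ n then (p : ℤ) * an (n / p) else 0) = an p * an n := by
  have hT := T_ev hp f_ev
  have hdiff : Ev ((PowerSeries.mk fun n => coeff (p * n) A +
      if p ∣ n then (p : ℤ) * coeff (n / p) A else 0) - C (an p) * A)
      (fun z => T p f z - (an p : ℂ) * f z) := hT.sub ((Ev.const (an p)).mul f_ev)
  have h0 := hdiff.unique (Y := 0) (fun z hz _ => by rw [T_f hp hp11 hz, sub_self])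
  have h1 := congrArg (coeff n) h0
  rw [map_sub, coeff_mk, PowerSeries.coeff_C_mul, map_zero, A_coeff, A_coeff, A_coeff] at h1
  linarith

theorem an_bound {p : ℕ} (hp : p.Prime) (hp11 : p ≠ 11) : |an p| ≤ p + 1 := by
  obtain ⟨K, hK0, hK⟩ := f_bound
  have hpR : (0 : ℝ) < p := by exact_mod_cast hp.pos
  have hp0 : (p : ℂ) ≠ 0 := by exact_mod_cast hp.ne_zero
  let S : Set ℝ := {t | ∃ z : ℂ, 0 < z.im ∧ t = ‖f z‖ * z.im}
  have hbdd : BddAbove S := ⟨K, by rintro t ⟨z, hz, rfl⟩; exact hK z hz⟩
  have hIS : ‖f Complex.I‖ * Complex.I.im ∈ S := ⟨Complex.I, by simp, rfl⟩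
  have hpos : 0 < sSup S := by
    refine lt_of_lt_of_le ?_ (le_csSup hbdd hIS)
    have := norm_pos_iff.mpr (f_ne_zero (z := Complex.I) (by simp))
    simpa using this
  have hle : ∀ z : ℂ, 0 < z.im → ‖f z‖ * z.im ≤ sSup S := fun z hz => le_csSup hbdd ⟨z, hz, rfl⟩
  have key : ∀ z : ℂ, 0 < z.im → |(an p : ℝ)| * (‖f z‖ * z.im) ≤ (p + 1) * sSup S := by
    intro z hz
    have h1 := T_f hp hp11 hz
    have h2 : ‖T p f z‖ ≤ p * ‖f (p * z)‖ + 1 / p * ∑ j ∈ Finset.range p, ‖f ((z + j) / p)‖ := by
      unfold T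
      refine le_trans (norm_add_le _ _) ?_
      rw [norm_mul, norm_mul, norm_div, norm_one, Complex.norm_natCast]
      gcongr
      exact norm_sum_le _ _
    have h3 : ‖T p f z‖ = |(an p : ℝ)| * ‖f z‖ := by
      rw [h1, norm_mul]
      congr 1
      exact Complex.norm_intCast (an p)
    rw [h3] at h2
    have h4 : ‖f (p * z)‖ * (p * z.im) ≤ sSup S := by
      have him : ((p : ℂ) * z).im = p * z.im := by
        simp
      have := hle (p * z) (by rw [him]; positivity)
      rwa [him] at this
    have h5 : ∀ j ∈ Finset.range p, ‖f ((z + j) / p)‖ * z.im ≤ p * sSup S := by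
      intro j _
      have him : ((z + j) / p : ℂ).im = z.im / p := by
        rw [Complex.div_natCast_im, Complex.add_im, Complex.natCast_im, add_zero]
      have := hle ((z + j) / p) (by rw [him]; positivity)
      rw [him] at this
      calc ‖f ((z + j) / p)‖ * z.im = p * (‖f ((z + j) / p)‖ * (z.im / p)) := by
            field_simp
        _ ≤ p * sSup S := mul_le_mul_of_nonneg_left this hpR.le
    have h6 : (∑ j ∈ Finset.range p, ‖f ((z + j) / p)‖) * z.im ≤ p * (p * sSup S) := by
      rw [Finset.sum_mul]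
      refine le_trans (Finset.sum_le_sum h5) ?_
      simp
    calc |(an p : ℝ)| * (‖f z‖ * z.im) = (|(an p : ℝ)| * ‖f z‖) * z.im := by ring
      _ ≤ (p * ‖f (p * z)‖ + 1 / p * ∑ j ∈ Finset.range p, ‖f ((z + j) / p)‖) * z.im :=
          mul_le_mul_of_nonneg_right h2 hz.le
      _ = ‖f (p * z)‖ * (p * z.im)
          + 1 / p * ((∑ j ∈ Finset.range p, ‖f ((z + j) / p)‖) * z.im) := by ring
      _ ≤ sSup S + 1 / p * (p * (p * sSup S)) := by
          gcongr
      _ = (p + 1) * sSup S := by
          field_simp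
          ring
  by_contra hcon
  push Not at hcon
  have hcon' : ((p : ℝ) + 1) < |(an p : ℝ)| := by exact_mod_cast hcon
  have hapos : 0 < |(an p : ℝ)| := by linarith
  have h7 : sSup S ≤ (p + 1) * sSup S / |(an p : ℝ)| := by
    apply csSup_le ⟨_, hIS⟩
    rintro t ⟨z, hz, rfl⟩
    rw [le_div_iff₀ hapos]
    calc ‖f z‖ * z.im * |(an p : ℝ)| = |(an p : ℝ)| * (‖f z‖ * z.im) := by ring
      _ ≤ _ := key z hz
  rw [le_div_iff₀ hapos] at h7
  nlinarith

end NC11
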