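import Pool.Agent.NC11.M1

set_option autoImplicit false

open scoped Real

namespace NC11

/-! ## [NC-M2] `η(γ z)² = ζ₁₂^{χ(γ)} (c z + d) η(z)²` for `γ ∈ SL₂(ℤ)`

Induction over words in `S, T` (Mathlib: `SpecialLinearGroup.SL2Z_generators`, `Subgroup.closure_induction_right`
or similar; `T⁻¹`, `S⁻¹` are handled by the formulas for `T`, `S`): if the formula holds for `γ` (all `z`), it holds for
`γ T`: `η(γ (z + 1))² = ζ^{χ(γ)} (c (z + 1) + d) η(z + 1)²`, and for `γ S`:
`η(γ(-1/z))² = ζ^{χ(γ)} (-c / z + d) η(-1/z)² = ζ^{χ(γ)} (d z - c) (-i) η(z)²`, `-i = ζ^9`. -/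

/-- the transformation formula for one matrix -/
def m2_Q (a b c d : ℤ) : Prop := ∀ z : ℂ, 0 < z.im →
  ModularForm.eta ((a * z + b) / (c * z + d)) ^ 2 =
    zt (chi a b c d) * (c * z + d) * ModularForm.eta z ^ 2

theorem m2_zt_one : zt 1 = Complex.exp (2 * π * Complex.I / 12) := by
  have h : (1 : ZMod 12).val = 1 := rfl
  rw [zt, h, pow_one]

theorem m2_zt_nine : zt 9 = -Complex.I := by
  have h : (9 : ZMod 12).val = 9 := rfl
  rw [zt, h, ← Complex.exp_nat_mul]
  have h2 : ((9 : ℕ) : ℂ) * (2 * π * Complex.I / 12) = -(π / 2 * Complex.I) + 2 * π * Complex.I := by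
    push_cast
    ring
  rw [h2, Complex.exp_add, Complex.exp_two_pi_mul_I, mul_one, ← neg_mul, ← neg_div]
  have h3 : Complex.exp (-(π : ℂ) / 2 * Complex.I) = -Complex.I := by
    rw [Complex.exp_mul_I]
    have h4 : (-(π : ℂ) / 2) = -((π / 2 : ℝ) : ℂ) := by push_cast; ring
    rw [h4, Complex.cos_neg, Complex.sin_neg, ← Complex.ofReal_cos, ← Complex.ofReal_sin,
      Real.cos_pi_div_two, Real.sin_pi_div_two]
    simp
  exact h3

theorem m2_zt_three : zt 3 = Complex.I := by
  have h : zt (9 + 3) = zt 9 * zt 3 := zt_add 9 3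
  have h2 : (9 + 3 : ZMod 12) = 0 := by decide
  rw [h2, zt_zero, m2_zt_nine] at h
  have h3 : Complex.I * (-Complex.I * zt 3) = Complex.I := by rw [← h, mul_one]
  calc zt 3 = Complex.I * (-Complex.I * zt 3) := by linear_combination (zt 3) * Complex.I_sq
    _ = Complex.I := h3

theorem m2_im {z : ℂ} (hz : 0 < z.im) : 0 < (-1 / z).im := by
  have hz0 : z ≠ 0 := by rintro rfl; simp at hz
  have h : (-1 / z).im = z.im / Complex.normSq z := by
    rw [neg_div, one_div, Complex.neg_im, Complex.inv_im]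
    ring
  rw [h]
  exact div_pos hz (Complex.normSq_pos.2 hz0)

theorem m2_T {a b c d : ℤ} (h : a * d - b * c = 1) (hQ : m2_Q a b c d) :
    m2_Q a (a + b) c (c + d) := by
  intro z hz
  have h1 := hQ (z + 1) (by simpa using hz)
  have h2 : chi (a : ZMod 12) ((a + b : ℤ) : ZMod 12) c ((c + d : ℤ) : ZMod 12) =
      chi a b c d + 1 := by
    push_cast
    exact chi_T a b c d (by exact_mod_cast congrArg (Int.cast : ℤ → ZMod 12) h)
  rw [h2, zt_add, m2_zt_one]
  have e1 : ((a : ℂ) * z + ((a + b : ℤ) : ℂ)) = a * (z + 1) + b := by push_cast; ring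
  have e2 : ((c : ℂ) * z + ((c + d : ℤ) : ℂ)) = c * (z + 1) + d := by push_cast; ring
  rw [e1, e2, h1, eta_sq_T]
  ring

theorem m2_T_inv {a b c d : ℤ} (h : a * d - b * c = 1) (hQ : m2_Q a b c d) :
    m2_Q a (b - a) c (d - c) := by
  intro z hz
  have h1 := hQ (z - 1) (by simpa using hz)
  have h2 : chi a b c d =
      chi (a : ZMod 12) ((b - a : ℤ) : ZMod 12) c ((d - c : ℤ) : ZMod 12) + 1 := by
    have h3 := chi_T (a : ZMod 12) ((b - a : ℤ) : ZMod 12) c ((d - c : ℤ) : ZMod 12) (by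
      have : a * (d - c) - (b - a) * c = 1 := by linear_combination h
      exact_mod_cast congrArg (Int.cast : ℤ → ZMod 12) this)
    rw [← h3]
    push_cast
    congr 1 <;> ring
  have e1 : ((a : ℂ) * z + ((b - a : ℤ) : ℂ)) = a * (z - 1) + b := by push_cast; ring
  have e2 : ((c : ℂ) * z + ((d - c : ℤ) : ℂ)) = c * (z - 1) + d := by push_cast; ring
  have h4 := eta_sq_T (z - 1)
  rw [sub_add_cancel] at h4
  rw [e1, e2, h1, h4, h2, zt_add, m2_zt_one]
  ring

theorem m2_S {a b c d : ℤ} (h : a * d - b * c = 1) (hQ : m2_Q a b c d) :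
    m2_Q b (-a) d (-c) := by
  intro z hz
  have hz0 : z ≠ 0 := by rintro rfl; simp at hz
  have h1 := hQ (-1 / z) (m2_im hz)
  have h2 : chi (b : ZMod 12) ((-a : ℤ) : ZMod 12) d ((-c : ℤ) : ZMod 12) =
      chi a b c d + 9 := by
    push_cast
    exact chi_S a b c d (by exact_mod_cast congrArg (Int.cast : ℤ → ZMod 12) h)
  rw [h2, zt_add, m2_zt_nine]
  have e1 : ((b : ℂ) * z + ((-a : ℤ) : ℂ)) / (d * z + ((-c : ℤ) : ℂ)) =
      (a * (-1 / z) + b) / (c * (-1 / z) + d) := by
    rw [← mul_div_mul_right (a * (-1 / z) + b) _ hz0]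
    congr 1
    · push_cast; field_simp; ring
    · push_cast; field_simp; ring
  rw [e1, h1, eta_sq_S hz]
  push_cast
  field_simp
  ring

theorem m2_S_inv {a b c d : ℤ} (h : a * d - b * c = 1) (hQ : m2_Q a b c d) :
    m2_Q (-b) a (-d) c := by
  intro z hz
  have hz0 : z ≠ 0 := by rintro rfl; simp at hz
  have h1 := hQ (-1 / z) (m2_im hz)
  have h2 : chi ((-b : ℤ) : ZMod 12) a ((-d : ℤ) : ZMod 12) c = chi a b c d + 3 := by
    have h3 := chi_S ((-b : ℤ) : ZMod 12) a ((-d : ℤ) : ZMod 12) c (by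
      have : (-b) * c - a * (-d) = 1 := by linear_combination h
      exact_mod_cast congrArg (Int.cast : ℤ → ZMod 12) this)
    push_cast at h3 ⊢
    rw [neg_neg, neg_neg] at h3
    rw [h3, add_assoc]
    have : (9 + 3 : ZMod 12) = 0 := by decide
    rw [this, add_zero]
  rw [h2, zt_add, m2_zt_three]
  have e1 : (((-b : ℤ) : ℂ) * z + a) / (((-d : ℤ) : ℂ) * z + c) =
      (a * (-1 / z) + b) / (c * (-1 / z) + d) := by
    rw [← mul_div_mul_right (a * (-1 / z) + b) _ (neg_ne_zero.2 hz0)]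
    congr 1
    · push_cast; field_simp; ring
    · push_cast; field_simp; ring
  rw [e1, h1, eta_sq_S hz]
  push_cast
  field_simp
  ring

theorem m2_all (g : Matrix.SpecialLinearGroup (Fin 2) ℤ) :
    m2_Q (g 0 0) (g 0 1) (g 1 0) (g 1 1) := by
  have hdet : ∀ g : Matrix.SpecialLinearGroup (Fin 2) ℤ, g 0 0 * g 1 1 - g 0 1 * g 1 0 = 1 := by
    intro g
    have h1 := g.det_coe
    rwa [Matrix.det_fin_two] at h1
  have hg : g ∈ Subgroup.closure {ModularGroup.S, ModularGroup.T} := by
    rw [SpecialLinearGroup.SL2Z_generators]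
    exact Subgroup.mem_top g
  induction hg using Subgroup.closure_induction_right with
  | one =>
    intro z hz
    simp [chi, zt_zero]
  | mul_right x hx y hy ih =>
    rcases hy with rfl | hy
    · have := m2_S (hdet x) ih
      convert this using 1 <;>
        simp [Matrix.SpecialLinearGroup.coe_mul, Matrix.mul_apply, Fin.sum_univ_two,
          ModularGroup.coe_S]
    · rw [Set.mem_singleton_iff] at hy
      subst hy
      have := m2_T (hdet x) ih
      convert this using 1 <;>
        simp [Matrix.SpecialLinearGroup.coe_mul, Matrix.mul_apply, Fin.sum_univ_two,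
          ModularGroup.coe_T]
  | mul_inv_cancel x hx y hy ih =>
    rcases hy with rfl | hy
    · have := m2_S_inv (hdet x) ih
      convert this using 1 <;>
        simp [Matrix.SpecialLinearGroup.coe_mul, Matrix.mul_apply, Fin.sum_univ_two,
          ModularGroup.coe_S, ModularGroup.S_inv]
    · rw [Set.mem_singleton_iff] at hy
      subst hy
      have := m2_T_inv (hdet x) ih
      convert this using 1 <;>
        simp [Matrix.SpecialLinearGroup.coe_mul, Matrix.mul_apply, Fin.sum_univ_two] <;> ring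

theorem eta_sq_SL (a b c d : ℤ) (h : a * d - b * c = 1) {z : ℂ} (hz : 0 < z.im) :
    ModularForm.eta ((a * z + b) / (c * z + d)) ^ 2 =
      zt (chi a b c d) * (c * z + d) * ModularForm.eta z ^ 2 := by
  have h1 := m2_all ⟨!![a, b; c, d], by rw [Matrix.det_fin_two_of]; exact h⟩
  exact h1 z hz

end NC11
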