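import Mathlib

/-!
# [NC11] the elliptic curve `E : y² + y = x³ - x² - 10 x - 20` (conductor 11): definitions

`f = η(z)² η(11 z)²` is the weight 2 newform of level 11.
-/

set_option autoImplicit false

open scoped Real

namespace NC11

/-- The elliptic curve `y² + y = x³ - x² - 10 x - 20`. -/
def E (K : Type*) [CommRing K] : WeierstrassCurve K := ⟨0, -1, 1, -10, -20⟩

/-- Good primes: `4 p = a² + 11 b²` with `a`, `b` odd. -/
def GoodPrime (p : ℕ) : Prop :=
  p.Prime ∧ ∃ a b : ℤ, Odd a ∧ Odd b ∧ 4 * (p : ℤ) = a ^ 2 + 11 * b ^ 2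

/-- Good levels: products of distinct good primes (including the empty product). -/
def GoodLevel (m : ℕ) : Prop := Squarefree m ∧ ∀ p, p.Prime → p ∣ m → GoodPrime p

/-! ## formal power series -/

section Formal

open PowerSeries

/-- `X ∏_{k ≤ N} (1 - X^k)² (1 - X^{11 k})²` -/
noncomputable def prodTo (N : ℕ) : PowerSeries ℤ :=
  X * ∏ k ∈ Finset.range N, ((1 - X ^ (k + 1)) ^ 2 * (1 - X ^ (11 * (k + 1))) ^ 2)

/-- The coefficients of `X ∏ (1 - X^n)² (1 - X^{11 n})²`. -/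
noncomputable def an (n : ℕ) : ℤ := coeff n (prodTo n)

/-- The `q`-expansion of `f`. -/
noncomputable def A : PowerSeries ℤ := mk an

/-- `A = X * phi` -/
noncomputable def phi : PowerSeries ℤ := mk fun n => an (n + 1)

/-- `σ(n) - 11 σ(n / 11)` -/
noncomputable def sg (n : ℕ) : ℤ :=
  (ArithmeticFunction.sigma 1 n : ℤ) -
    if 11 ∣ n then 11 * (ArithmeticFunction.sigma 1 (n / 11) : ℤ) else 0

/-- The `q`-expansion of `w = (11 E₂(11 z) - E₂(z)) / 2`: `5 + 12 ∑ sg(n) X^n`. -/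
noncomputable def W : PowerSeries ℤ := mk fun n => if n = 0 then 5 else 12 * sg n

/-- The derivation `X d/dX`. -/
noncomputable def D {R : Type*} [CommRing R] (g : PowerSeries R) : PowerSeries R :=
  mk fun n => (n : R) * coeff n g

end Formal

/-! ## functions on the upper half plane -/

/-- `e^{2 π i z}` -/
noncomputable def qq (z : ℂ) : ℂ := Complex.exp (2 * π * Complex.I * z)

/-- The upper half plane. -/
def UH : Set ℂ := {z | 0 < z.im}

/-- The newform `f(z) = η(z)² η(11 z)²`. -/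
noncomputable def f (z : ℂ) : ℂ := ModularForm.eta z ^ 2 * ModularForm.eta (11 * z) ^ 2

/-- The Eisenstein series `w(z) = (11 E₂(11 z) - E₂(z)) / 2 = 5 + 12 ∑ sg(n) q^n`. -/
noncomputable def w (z : ℂ) : ℂ := ∑' n : ℕ, ((PowerSeries.coeff n W : ℤ) : ℂ) * qq z ^ n

/-- The integral `h(z) = ∑ a(n)/n q^n = 2 π i ∫_{i∞}^z f`. -/
noncomputable def hh (z : ℂ) : ℂ := ∑' n : ℕ, (an n : ℂ) / n * qq z ^ n

/-- `L(f, 1) = 2 h(i / √11)`. -/
noncomputable def Lval : ℂ := 2 * hh (Complex.I / √11)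

/-- The power series `B` converges to the function `g` on the upper half plane. -/
def Ev (B : PowerSeries ℤ) (g : ℂ → ℂ) : Prop :=
  ∀ z : ℂ, 0 < z.im → HasSum (fun n => ((PowerSeries.coeff n B : ℤ) : ℂ) * qq z ^ n) (g z)

/-- `g` is invariant of weight `k` under `Γ₀(11)`. -/
def Mod (k : ℕ) (g : ℂ → ℂ) : Prop :=
  ∀ a b c d : ℤ, a * d - 11 * b * c = 1 → ∀ z : ℂ, 0 < z.im →
    g ((a * z + b) / (11 * c * z + d)) = (11 * c * z + d) ^ k * g z

/-- `g` is mapped to `- g` by the Fricke involution (weight 2). -/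
def Fricke (g : ℂ → ℂ) : Prop := ∀ z : ℂ, 0 < z.im → g (-1 / (11 * z)) = -11 * z ^ 2 * g z

/-- The Hecke operator `T_p` in weight 2. -/
noncomputable def T (p : ℕ) (g : ℂ → ℂ) (z : ℂ) : ℂ :=
  p * g (p * z) + 1 / p * ∑ j ∈ Finset.range p, g ((z + j) / p)

end NC11
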