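import Pool.Agent.NC11.Defs

set_option autoImplicit false

open scoped Real

namespace NC11

/-! ## [NC-M1] the transformation of `η²`

`eta_sq_S`: Mathlib's `eta_comp_eq_csqrt_I_inv` / `eta_comp_eqOn_const_mul_csqrt_eta` (file
ModularForms/Discriminant.lean). `eta_sq_T`: from the definition (`𝕢 24 (z + 1) = e^{2πi/24} 𝕢 24 z`,
`eta_q n (z + 1) = eta_q n z`). `chi_T`, `chi_S`, `chi_neg`: finite check; if `decide` on `ZMod 12` is too
slow, check it modulo 3 and modulo 4 (a polynomial identity modulo 3 and modulo 4). -/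

/-- The exponent of the character of `η²` (modulo 12). -/
def chi (a b c d : ZMod 12) : ZMod 12 :=
  (1 - c ^ 2) * (b * d + 3 * (c - 1) * d + c + 3) + c * (a + d - 3)

theorem chi_T (a b c d : ZMod 12) (h : a * d - b * c = 1) :
    chi a (a + b) c (c + d) = chi a b c d + 1 := by
  revert a b c d
  unfold chi
  decide +kernel

theorem chi_S (a b c d : ZMod 12) (h : a * d - b * c = 1) :
    chi b (-a) d (-c) = chi a b c d + 9 := by
  revert a b c d
  unfold chi
  decide +kernel

theorem chi_neg (a b c d : ZMod 12) (h : a * d - b * c = 1) :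
    chi a (-b) (-c) d + chi a b c d = 0 := by
  revert a b c d
  unfold chi
  decide +kernel

theorem eta_sq_T (z : ℂ) :
    ModularForm.eta (z + 1) ^ 2 = Complex.exp (2 * π * Complex.I / 12) * ModularForm.eta z ^ 2 := by
  have h1 : ∀ n : ℕ, ModularForm.eta_q n (z + 1) = ModularForm.eta_q n z := by
    intro n
    rw [ModularForm.eta_q_eq_pow, ModularForm.eta_q_eq_pow, mul_add, mul_one, Complex.exp_periodic]
  have h2 : Function.Periodic.qParam 24 (z + 1)
      = Complex.exp (2 * π * Complex.I / 24) * Function.Periodic.qParam 24 z := by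
    unfold Function.Periodic.qParam
    rw [← Complex.exp_add]
    congr 1
    push_cast
    ring
  have h3 : Complex.exp (2 * π * Complex.I / 24) ^ 2 = Complex.exp (2 * π * Complex.I / 12) := by
    rw [← Complex.exp_nat_mul]
    congr 1
    push_cast
    ring
  unfold ModularForm.eta
  simp only [h1]
  rw [h2, ← h3]
  ring

theorem eta_sq_S {z : ℂ} (hz : 0 < z.im) :
    ModularForm.eta (-1 / z) ^ 2 = -Complex.I * z * ModularForm.eta z ^ 2 := by
  have hs : ∀ w : ℂ, w ≠ 0 → Complex.sqrt w ^ 2 = w := by
    intro w hw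
    rw [sqrt_eq_exp hw, ← Complex.exp_nat_mul]
    rw [show ((2 : ℕ) : ℂ) * (Complex.log w / 2) = Complex.log w by push_cast; ring]
    exact Complex.exp_log hw
  have hz0 : z ≠ 0 := by
    rintro rfl
    simp at hz
  have he : ModularForm.eta (-1 / z)
      = (Complex.sqrt Complex.I)⁻¹ * (Complex.sqrt z * ModularForm.eta z) := by
    simpa using ModularForm.eta_comp_eq_csqrt_I_inv hz
  rw [he, mul_pow, mul_pow, inv_pow, hs _ Complex.I_ne_zero, hs _ hz0, Complex.inv_I]
  ring

/-- `e^{2πi/12}` to a power in `ZMod 12` -/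
noncomputable def zt (x : ZMod 12) : ℂ := Complex.exp (2 * π * Complex.I / 12) ^ x.val

theorem zt_add (x y : ZMod 12) : zt (x + y) = zt x * zt y := by
  have h12 : Complex.exp (2 * π * Complex.I / 12) ^ 12 = 1 := by
    rw [← Complex.exp_nat_mul]
    rw [show ((12 : ℕ) : ℂ) * (2 * π * Complex.I / 12) = 2 * π * Complex.I by push_cast; ring]
    exact Complex.exp_two_pi_mul_I
  unfold zt
  rw [← pow_add, ZMod.val_add]
  conv_rhs => rw [← Nat.div_add_mod (x.val + y.val) 12, pow_add, pow_mul, h12, one_pow, one_mul]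

theorem zt_zero : zt 0 = 1 := by
  unfold zt
  simp

end NC11
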