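import Pool.Agent.NC11.M2
import Pool.Agent.MP_9ab903_nt.MF.Q

set_option autoImplicit false

open scoped Real

namespace NC11

/-! ## [NC-M3] `f = η(z)² η(11 z)²` is modular of weight 2 for `Γ₀(11)`

Proof: by the level 11 files `MP_9ab903_nt/MF`. -/

theorem f_eq : f = X11.etaF := rfl

theorem f_mod : Mod 2 f := by
  intro a b c d h z hz
  have hdet : (!![a, b; 11 * c, d] : Matrix (Fin 2) (Fin 2) ℤ).det = 1 := by
    rw [Matrix.det_fin_two_of]; linarith
  have hM := X11.HG_of_Gamma0 hdet ⟨c, by simp⟩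
  have h1 := hM.tf z hz
  rw [hdet] at h1
  simp only [MP9c45e8.mob, MP9c45e8.jj, Matrix.of_apply, Matrix.cons_val', Matrix.cons_val_zero,
    Matrix.cons_val_one, Matrix.cons_val_fin_one, Int.cast_mul, Int.cast_ofNat, Int.cast_one,
    mul_one, one_mul] at h1
  exact h1

theorem f_fricke : Fricke f := by
  intro z hz
  have h0 : 11 * (0 : ℤ) ^ 2 + (-1) * 1 = -1 := by norm_num
  have h1 := X11.EM_TF h0 z hz
  rw [X11.EM_det h0, X11.EM_jj] at h1
  have h2 : MP9c45e8.mob (X11.EM 0 (-1) 1) z = -1 / (11 * z) := by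
    simp [MP9c45e8.mob, X11.EM]
  rw [h2] at h1
  push_cast at h1
  rw [f_eq]
  have h11 : (11 : ℂ) ≠ 0 := by norm_num
  apply mul_right_cancel₀ h11
  rw [h1]
  ring

theorem f_ne_zero {z : ℂ} (hz : 0 < z.im) : f z ≠ 0 := X11.etaF_ne_zero hz

theorem f_diff : DifferentiableOn ℂ f UH := X11.differentiableOn_etaF

theorem m3_AA_real {r : ℝ} (h0 : 0 ≤ r) (h1 : r < 1) :
    ∃ t : ℝ, 0 < t ∧ t ≤ 1 ∧ MP9c45e8.AA r = t := by
  have hn : ‖(r : ℂ)‖ < 1 := by
    rw [Complex.norm_real, Real.norm_eq_abs, abs_of_nonneg h0]; exact h1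
  have hm := ModularForm.multipliable_one_sub_pow hn
  have hs : Summable fun n : ℕ ↦ r ^ (n + 1) := by
    simpa using (summable_nat_add_iff 1).mpr (summable_geometric_of_lt_one h0 h1)
  have hmr : Multipliable fun n : ℕ ↦ (1 - r ^ (n + 1)) := by
    simp_rw [sub_eq_add_neg]
    apply multipliable_one_add_of_summable
    simpa [abs_of_nonneg h0] using hs
  refine ⟨∏' n : ℕ, (1 - r ^ (n + 1)), ?_, ?_, ?_⟩
  · have hne : MP9c45e8.AA r ≠ 0 := MP9c45e8.AA_ne_zero hn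
    have hnn : 0 ≤ ∏' n : ℕ, (1 - r ^ (n + 1)) := by
      refine ge_of_tendsto' hmr.hasProd.tendsto_prod_nat fun n ↦ ?_
      refine Finset.prod_nonneg fun i _ ↦ ?_
      linarith [pow_le_one₀ h0 h1.le (n := i + 1)]
    refine lt_of_le_of_ne hnn fun h ↦ hne ?_
    unfold MP9c45e8.AA
    have := hmr.map_tprod (Complex.ofRealHom : ℝ →+* ℂ) Complex.continuous_ofReal
    rw [← h] at this
    simp only [Complex.ofRealHom_eq_coe, Complex.ofReal_zero, Complex.ofReal_sub,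
      Complex.ofReal_one, Complex.ofReal_pow] at this
    exact this.symm
  · refine le_of_tendsto' hmr.hasProd.tendsto_prod_nat fun n ↦ ?_
    refine Finset.prod_le_one (fun i _ ↦ ?_) fun i _ ↦ ?_
    · linarith [pow_le_one₀ h0 h1.le (n := i + 1)]
    · linarith [pow_nonneg h0 (i + 1)]
  · unfold MP9c45e8.AA
    have := hmr.map_tprod (Complex.ofRealHom : ℝ →+* ℂ) Complex.continuous_ofReal
    simp only [Complex.ofRealHom_eq_coe, Complex.ofReal_sub,
      Complex.ofReal_one, Complex.ofReal_pow] at this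
    exact this.symm

/-- `f(i y) = q ∏ (1 - q^n)² (1 - q^{11 n})²` with `q = e^{-2 π y}`, so `0 < f(i y) ≤ e^{-2 π y}` -/
theorem f_iy (y : ℝ) (hy : 0 < y) :
    ∃ t : ℝ, 0 < t ∧ t ≤ Real.exp (-2 * π * y) ∧ f (Complex.I * y) = t := by
  have hr0 := Real.exp_pos (-2 * π * y)
  have hr1 : Real.exp (-2 * π * y) < 1 := by
    rw [Real.exp_lt_one_iff]
    have := Real.pi_pos
    nlinarith
  have hq : MP9c45e8.qq (Complex.I * y) = (Real.exp (-2 * π * y) : ℝ) := by
    rw [MP9c45e8.qq, Complex.ofReal_exp]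
    congr 1
    push_cast
    linear_combination (2 * (π : ℂ) * y) * Complex.I_sq
  set r : ℝ := Real.exp (-2 * π * y) with hr
  obtain ⟨t1, h1, h1', e1⟩ := m3_AA_real hr0.le hr1
  obtain ⟨t2, h2, h2', e2⟩ := m3_AA_real (r := r ^ 11) (by positivity)
    (pow_lt_one₀ hr0.le hr1 (by norm_num))
  refine ⟨r * (t1 ^ 2 * t2 ^ 2), by positivity, ?_, ?_⟩
  · have a1 : t1 ^ 2 ≤ 1 := pow_le_one₀ h1.le h1'
    have a2 : t2 ^ 2 ≤ 1 := pow_le_one₀ h2.le h2'
    have a3 : t1 ^ 2 * t2 ^ 2 ≤ 1 := mul_le_one₀ a1 (by positivity) a2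
    calc r * (t1 ^ 2 * t2 ^ 2) ≤ r * 1 := by gcongr
      _ = r := mul_one _
  · rw [f_eq, X11.etaF_eq, hq, X11.phi, e1, ← Complex.ofReal_pow r 11, e2]
    push_cast
    ring

end NC11
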